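import Mathlib

/-!
Helper file for the negative answer to MP_35dab7_an.
The conformal map `u ↦ A u² - i B u + log u` of the right half-plane and its level curves.
-/

set_option autoImplicit false

open Complex Set Filter Topology

namespace Pool.Agent.H35

/-- the right half-plane -/
def HP : Set ℂ := {u : ℂ | 0 < u.re}

/-- the basic conformal map -/
noncomputable def FF (A B : ℝ) (u : ℂ) : ℂ := A * u^2 - I * B * u + Complex.log u

/-- its derivative -/
noncomputable def FD (A B : ℝ) (u : ℂ) : ℂ := 2 * A * u - I * B + u⁻¹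

lemma im_ab (a b : ℝ) : ((a : ℂ) + b * I).im = b := by simp
lemma re_ab (a b : ℝ) : ((a : ℂ) + b * I).re = a := by simp

lemma isOpen_HP : IsOpen HP := isOpen_lt continuous_const Complex.continuous_re

lemma convex_HP : Convex ℝ HP := by
  have : HP = Complex.reLm ⁻¹' (Set.Ioi 0) := by ext z; simp [HP]
  rw [this]
  exact (convex_Ioi (0 : ℝ)).linear_preimage Complex.reLm

lemma HP_slit {u : ℂ} (hu : u ∈ HP) : u ∈ slitPlane := Or.inl hu

lemma HP_ne {u : ℂ} (hu : u ∈ HP) : u ≠ 0 := by
  rintro rfl; simp [HP] at hu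

variable {A B : ℝ}

lemma FF_hasDerivAt {u : ℂ} (hu : u ∈ slitPlane) : HasDerivAt (FF A B) (FD A B u) u := by
  have h1 : HasDerivAt (fun u : ℂ => (A : ℂ) * u^2 - I * B * u + Complex.log u)
      ((A : ℂ) * (2 * u) - I * B * 1 + u⁻¹) u := by
    refine HasDerivAt.add (HasDerivAt.sub ?_ ?_) (Complex.hasDerivAt_log hu)
    · simpa using (hasDerivAt_pow 2 u).const_mul (A : ℂ)
    · exact (hasDerivAt_id u).const_mul (I * B : ℂ)
  have e : FD A B u = (A : ℂ) * (2 * u) - I * B * 1 + u⁻¹ := by unfold FD; ring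
  rw [e]; exact h1

lemma FD_re_pos (hA : 0 < A) {u : ℂ} (hu : u ∈ HP) : 0 < (FD A B u).re := by
  have h0 : 0 < u.re := hu
  have h1 : 0 < (u⁻¹).re := by
    rw [Complex.inv_re]
    exact div_pos h0 (Complex.normSq_pos.mpr (HP_ne hu))
  have e : (FD A B u).re = 2 * A * u.re + (u⁻¹).re := by
    unfold FD
    simp
  rw [e]; positivity

lemma FF_injOn (hA : 0 < A) : InjOn (FF A B) HP := by
  intro u hu v hv huv
  by_contra hne
  set d : ℂ := v - u with hd
  have hd0 : d ≠ 0 := sub_ne_zero.mpr (Ne.symm hne)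
  have hseg : ∀ t ∈ Icc (0:ℝ) 1, u + t * d ∈ HP := by
    intro t ht
    have := convex_HP hu hv (sub_nonneg.mpr ht.2) ht.1 (by ring)
    have e : u + t * d = (1 - t) • u + t • v := by
      rw [hd]; simp only [Complex.real_smul]; push_cast; ring
    rw [e]; exact this
  have hder : ∀ t ∈ Icc (0:ℝ) 1, HasDerivAt
      (fun t : ℝ => ((starRingEnd ℂ) d * FF A B (u + t * d)).re)
      (((starRingEnd ℂ) d * (FD A B (u + t * d) * d)).re) t := by
    intro t ht
    have h1 : HasDerivAt (fun w : ℂ => (starRingEnd ℂ) d * FF A B (u + w * d))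
        ((starRingEnd ℂ) d * (FD A B (u + t * d) * d)) (t : ℂ) := by
      have h2 : HasDerivAt (fun w : ℂ => u + w * d) d (t : ℂ) := by
        simpa using ((hasDerivAt_id (t:ℂ)).mul_const d).const_add u
      exact ((FF_hasDerivAt (HP_slit (hseg t ht))).comp (t:ℂ) h2).const_mul _
    exact h1.real_of_complex
  have hcont : ContinuousOn (fun t : ℝ => ((starRingEnd ℂ) d * FF A B (u + t * d)).re)
      (Icc 0 1) := fun t ht => (hder t ht).continuousAt.continuousWithinAt
  obtain ⟨t, ht, hteq⟩ := exists_hasDerivAt_eq_slope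
    (fun t : ℝ => ((starRingEnd ℂ) d * FF A B (u + t * d)).re)
    (fun t : ℝ => ((starRingEnd ℂ) d * (FD A B (u + t * d) * d)).re) zero_lt_one hcont
    (fun t ht => hder t (Ioo_subset_Icc_self ht))
  have e1 : u + ((1:ℝ):ℂ) * d = v := by rw [hd]; push_cast; ring
  have e0 : u + ((0:ℝ):ℂ) * d = u := by push_cast; ring
  rw [e1, e0, huv] at hteq
  have h3 : (starRingEnd ℂ) d * (FD A B (u + t * d) * d) = (Complex.normSq d : ℂ) * FD A B (u + t * d) := by
    rw [Complex.normSq_eq_conj_mul_self]; ring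
  rw [h3, Complex.re_ofReal_mul] at hteq
  have h4 := FD_re_pos (A := A) (B := B) hA (hseg t (Ioo_subset_Icc_self ht))
  have h5 : 0 < Complex.normSq d := Complex.normSq_pos.mpr hd0
  have h6 := mul_pos h5 h4
  rw [hteq] at h6
  simp at h6

lemma mem_HP_iff (x y : ℝ) : ((x : ℂ) + y * I) ∈ HP ↔ 0 < x := by simp [HP]

/-- imaginary part in Cartesian coordinates -/
lemma FF_im (x y : ℝ) : (FF A B ((x : ℂ) + y * I)).im
    = 2 * A * x * y - B * x + Complex.arg ((x : ℂ) + y * I) := by
  unfold FF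
  simp only [Complex.add_im, Complex.sub_im, Complex.log_im]
  have h1 : ((A : ℂ) * ((x:ℂ) + y * I)^2).im = 2 * A * x * y := by
    have : (A : ℂ) * ((x:ℂ) + y * I)^2 = ((A * (x^2 - y^2) : ℝ) : ℂ) + ((2 * A * x * y : ℝ) : ℂ) * I := by
      push_cast
      linear_combination (A : ℂ) * y^2 * I_sq
    rw [this, im_ab]
  have h2 : (I * (B : ℂ) * ((x:ℂ) + y * I)).im = B * x := by
    have : I * (B : ℂ) * ((x:ℂ) + y * I) = ((-(B * y) : ℝ) : ℂ) + ((B * x : ℝ) : ℂ) * I := by
      push_cast
      linear_combination (B : ℂ) * y * I_sq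
    rw [this, im_ab]
  rw [h1, h2]

lemma FF_im_hasDerivAt {x : ℝ} (hx : 0 < x) (y : ℝ) :
    HasDerivAt (fun y : ℝ => (FF A B ((x : ℂ) + y * I)).im) (FD A B ((x : ℂ) + y * I)).re y := by
  have h2 : HasDerivAt (fun w : ℂ => (x:ℂ) + w * I) I (y : ℂ) := by
    simpa using ((hasDerivAt_id (y:ℂ)).mul_const I).const_add (x:ℂ)
  have h1 : HasDerivAt (fun w : ℂ => -I * FF A B ((x : ℂ) + w * I))
      (-I * (FD A B ((x : ℂ) + y * I) * I)) (y : ℂ) :=
    ((FF_hasDerivAt (HP_slit ((mem_HP_iff x y).mpr hx))).comp (y:ℂ) h2).const_mul _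
  have h3 := h1.real_of_complex
  have e1 : -I * (FD A B ((x : ℂ) + y * I) * I) = FD A B ((x : ℂ) + y * I) := by
    linear_combination -(FD A B ((x : ℂ) + y * I)) * I_sq
  rw [e1] at h3
  have e2 : (fun y : ℝ => (-I * FF A B ((x : ℂ) + y * I)).re)
      = (fun y : ℝ => (FF A B ((x : ℂ) + y * I)).im) := by
    funext y; simp
  rwa [e2] at h3

lemma FF_im_strictMono (hA : 0 < A) {x : ℝ} (hx : 0 < x) :
    StrictMono (fun y : ℝ => (FF A B ((x : ℂ) + y * I)).im) := by
  apply strictMono_of_hasDerivAt_pos (f' := fun y => (FD A B ((x : ℂ) + y * I)).re)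
  · intro y; exact FF_im_hasDerivAt hx y
  · intro y; exact FD_re_pos hA ((mem_HP_iff x y).mpr hx)

lemma FF_im_surj (hA : 0 < A) {x : ℝ} (hx : 0 < x) (c : ℝ) :
    ∃ y : ℝ, (FF A B ((x : ℂ) + y * I)).im = c := by
  have hcont : Continuous (fun y : ℝ => (FF A B ((x : ℂ) + y * I)).im) :=
    continuous_iff_continuousAt.mpr (fun y => (FF_im_hasDerivAt hx y).continuousAt)
  have hpos : 0 < 2 * A * x := by positivity
  refine hcont.surjective ?_ ?_ c
  · have h1 : Tendsto (fun y : ℝ => 2 * A * x * y - B * x + -Real.pi) atTop atTop :=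
      tendsto_atTop_add_const_right _ _ (tendsto_atTop_add_const_right _ _
        (tendsto_id.const_mul_atTop hpos))
    refine tendsto_atTop_mono (fun y => ?_) h1
    rw [FF_im]
    linarith [Complex.neg_pi_lt_arg ((x:ℂ) + y * I)]
  · have h1 : Tendsto (fun y : ℝ => 2 * A * x * y - B * x + Real.pi) atBot atBot :=
      tendsto_atBot_add_const_right _ _ (tendsto_atBot_add_const_right _ _
        (tendsto_id.const_mul_atBot hpos))
    refine tendsto_atBot_mono (fun y => ?_) h1
    rw [FF_im]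
    linarith [Complex.arg_le_pi ((x:ℂ) + y * I)]

open scoped Classical in
/-- the level curve `Im F = c` as a graph over `x = exp s` -/
noncomputable def YY (A B c : ℝ) (s : ℝ) : ℝ :=
  if h : ∃ y : ℝ, (FF A B ((Real.exp s : ℝ) + y * I)).im = c then h.choose else 0

lemma YY_spec (hA : 0 < A) (c s : ℝ) :
    (FF A B ((Real.exp s : ℝ) + (YY A B c s : ℝ) * I)).im = c := by
  have h := FF_im_surj (B := B) hA (Real.exp_pos s) c
  unfold YY
  rw [dif_pos h]
  exact h.choose_spec

/-- points of the level curve -/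
noncomputable def gam (A B c : ℝ) (s : ℝ) : ℂ := (Real.exp s : ℝ) + (YY A B c s : ℝ) * I

lemma gam_mem (c s : ℝ) : gam A B c s ∈ HP := (mem_HP_iff _ _).mpr (Real.exp_pos s)

lemma gam_im_eq (hA : 0 < A) (c s : ℝ) : (FF A B (gam A B c s)).im = c := YY_spec hA c s

lemma gam_surj (hA : 0 < A) {u : ℂ} (hu : u ∈ HP) {c : ℝ} (hc : (FF A B u).im = c) :
    ∃ s : ℝ, gam A B c s = u := by
  refine ⟨Real.log u.re, ?_⟩
  have hx : 0 < u.re := hu
  have h1 : Real.exp (Real.log u.re) = u.re := Real.exp_log hx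
  have h2 := YY_spec (B := B) hA c (Real.log u.re)
  rw [h1] at h2
  have h3 : (FF A B ((u.re : ℂ) + u.im * I)).im = c := by rw [Complex.re_add_im]; exact hc
  have h4 : YY A B c (Real.log u.re) = u.im :=
    (FF_im_strictMono (B := B) hA hx).injective (h2.trans h3.symm)
  unfold gam
  rw [h1, h4, Complex.re_add_im]

lemma continuous_FF_im (a : ℝ) : Continuous (fun s : ℝ =>
    (FF A B ((Real.exp s : ℝ) + (a : ℝ) * I)).im) := by
  rw [continuous_iff_continuousAt]
  intro s
  have h1 : ContinuousAt (FF A B) (((Real.exp s : ℝ) : ℂ) + (a : ℝ) * I) :=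
    (FF_hasDerivAt (HP_slit ((mem_HP_iff _ _).mpr (Real.exp_pos s)))).continuousAt
  have h2 : Continuous (fun s : ℝ => ((Real.exp s : ℝ) : ℂ) + (a : ℝ) * I) := by
    fun_prop
  have h3 : ContinuousAt (fun s : ℝ => FF A B (((Real.exp s : ℝ) : ℂ) + (a : ℝ) * I)) s :=
    ContinuousAt.comp' h1 h2.continuousAt
  exact Complex.continuous_im.continuousAt.comp' h3

lemma continuous_YY (hA : 0 < A) (c : ℝ) : Continuous (YY A B c) := by
  rw [continuous_iff_continuousAt]
  intro s0
  have hcs : ∀ a : ℝ, Continuous (fun s : ℝ => (FF A B ((Real.exp s : ℝ) + (a : ℝ) * I)).im) :=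
    fun a => continuous_FF_im a
  refine tendsto_order.mpr ⟨?_, ?_⟩
  · intro a ha
    have h1 : (FF A B ((Real.exp s0 : ℝ) + (a : ℝ) * I)).im < c := by
      have := FF_im_strictMono (B := B) hA (Real.exp_pos s0) ha
      simp only at this
      rwa [YY_spec hA c s0] at this
    have h2 : ∀ᶠ s in 𝓝 s0, (FF A B ((Real.exp s : ℝ) + (a : ℝ) * I)).im < c :=
      (hcs a).continuousAt.eventually_lt continuousAt_const h1
    filter_upwards [h2] with s hs
    rw [← YY_spec (B := B) hA c s] at hs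
    exact (FF_im_strictMono (B := B) hA (Real.exp_pos s)).lt_iff_lt.mp hs
  · intro a ha
    have h1 : c < (FF A B ((Real.exp s0 : ℝ) + (a : ℝ) * I)).im := by
      have := FF_im_strictMono (B := B) hA (Real.exp_pos s0) ha
      simp only at this
      rwa [YY_spec hA c s0] at this
    have h2 : ∀ᶠ s in 𝓝 s0, c < (FF A B ((Real.exp s : ℝ) + (a : ℝ) * I)).im :=
      continuousAt_const.eventually_lt (hcs a).continuousAt h1
    filter_upwards [h2] with s hs
    rw [← YY_spec (B := B) hA c s] at hs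
    exact (FF_im_strictMono (B := B) hA (Real.exp_pos s)).lt_iff_lt.mp hs

lemma continuous_gam (hA : 0 < A) (c : ℝ) : Continuous (gam A B c) := by
  unfold gam
  have := continuous_YY (B := B) hA c
  fun_prop

/-- real part of `F` along the level curve -/
noncomputable def XX (A B c : ℝ) (s : ℝ) : ℝ := (FF A B (gam A B c s)).re

lemma continuous_XX (hA : 0 < A) (c : ℝ) : Continuous (XX A B c) := by
  rw [continuous_iff_continuousAt]
  intro s
  have h1 : ContinuousAt (FF A B) (gam A B c s) := (FF_hasDerivAt (HP_slit (gam_mem c s))).continuousAt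
  have h3 : ContinuousAt (fun s => FF A B (gam A B c s)) s :=
    ContinuousAt.comp' h1 (continuous_gam hA c).continuousAt
  exact Complex.continuous_re.continuousAt.comp' h3

lemma gam_re (c s : ℝ) : (gam A B c s).re = Real.exp s := by unfold gam; rw [re_ab]

lemma gam_im (c s : ℝ) : (gam A B c s).im = YY A B c s := by unfold gam; rw [im_ab]

lemma XX_injective (hA : 0 < A) (c : ℝ) : Function.Injective (XX A B c) := by
  intro s t hst
  have h1 : FF A B (gam A B c s) = FF A B (gam A B c t) := by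
    apply Complex.ext
    · exact hst
    · rw [gam_im_eq hA, gam_im_eq hA]
  have h2 := FF_injOn hA (gam_mem c s) (gam_mem c t) h1
  have h3 := congrArg Complex.re h2
  rw [gam_re, gam_re] at h3
  exact Real.exp_injective h3

lemma abs_arg_lt {u : ℂ} (hu : u ∈ HP) : |Complex.arg u| < Real.pi / 2 :=
  Complex.abs_arg_lt_pi_div_two_iff.mpr (Or.inl hu)

lemma FF_re_expr (x y : ℝ) : (FF A B ((x : ℂ) + y * I)).re
    = A * (x^2 - y^2) + B * y + Real.log ‖(x : ℂ) + y * I‖ := by
  unfold FF
  simp only [Complex.add_re, Complex.sub_re, Complex.log_re]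
  have h1 : ((A : ℂ) * ((x:ℂ) + y * I)^2).re = A * (x^2 - y^2) := by
    have : (A : ℂ) * ((x:ℂ) + y * I)^2 = ((A * (x^2 - y^2) : ℝ) : ℂ) + ((2 * A * x * y : ℝ) : ℂ) * I := by
      push_cast
      linear_combination (A : ℂ) * y^2 * I_sq
    rw [this, re_ab]
  have h2 : (I * (B : ℂ) * ((x:ℂ) + y * I)).re = -(B * y) := by
    have : I * (B : ℂ) * ((x:ℂ) + y * I) = ((-(B * y) : ℝ) : ℂ) + ((B * x : ℝ) : ℂ) * I := by
      push_cast
      linear_combination (B : ℂ) * y * I_sq
    rw [this, re_ab]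
  rw [h1, h2]; ring

lemma level_eq (hA : 0 < A) (c s : ℝ) :
    2 * A * Real.exp s * YY A B c s - B * Real.exp s + Complex.arg (gam A B c s) = c := by
  have := YY_spec (B := B) hA c s
  rwa [FF_im] at this

lemma XX_expr (c s : ℝ) : XX A B c s
    = A * ((Real.exp s)^2 - (YY A B c s)^2) + B * YY A B c s + Real.log ‖gam A B c s‖ := by
  unfold XX gam
  exact FF_re_expr _ _

lemma XX_tendsto_atTop (hA : 0 < A) (c : ℝ) : Tendsto (XX A B c) atTop atTop := by
  set M : ℝ := (|c| + |B| + 4) / (2 * A) with hM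
  have hM0 : 0 ≤ M := by positivity
  have hbound : ∀ s : ℝ, 0 ≤ s → |YY A B c s| ≤ M := by
    intro s hs
    have hx : 1 ≤ Real.exp s := Real.one_le_exp hs
    have h1 := level_eq (B := B) hA c s
    have h2 : |Complex.arg (gam A B c s)| ≤ 4 := by
      have := Complex.abs_arg_le_pi (gam A B c s)
      linarith [Real.pi_lt_four]
    have h3 : |2 * A * Real.exp s * YY A B c s| ≤ (|c| + |B| + 4) * Real.exp s := by
      have e : 2 * A * Real.exp s * YY A B c s = c + B * Real.exp s - Complex.arg (gam A B c s) := by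
        linarith
      rw [e]
      calc |c + B * Real.exp s - Complex.arg (gam A B c s)|
          ≤ |c| + |B * Real.exp s| + |Complex.arg (gam A B c s)| := by
            refine (abs_sub _ _).trans ?_
            gcongr
            exact abs_add_le _ _
        _ ≤ |c| + |B| * Real.exp s + 4 := by
            rw [abs_mul, abs_of_pos (Real.exp_pos s)]; gcongr
        _ ≤ (|c| + |B| + 4) * Real.exp s := by nlinarith [abs_nonneg c]
    rw [abs_mul, abs_of_pos (by positivity : 0 < 2 * A * Real.exp s)] at h3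
    rw [hM, le_div_iff₀ (by positivity)]
    have h4 : Real.exp s * (|YY A B c s| * (2 * A)) ≤ Real.exp s * (|c| + |B| + 4) := by
      nlinarith
    exact le_of_mul_le_mul_left h4 (Real.exp_pos s)
  have h1 : Tendsto (fun s : ℝ => A * Real.exp s + -(A * M^2 + |B| * M)) atTop atTop :=
    tendsto_atTop_add_const_right _ _ (Real.tendsto_exp_atTop.const_mul_atTop hA)
  refine tendsto_atTop_mono' _ ?_ h1
  filter_upwards [eventually_ge_atTop (0:ℝ)] with s hs
  have hx : 1 ≤ Real.exp s := Real.one_le_exp hs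
  have hY := hbound s hs
  rw [XX_expr]
  have h2 : 0 ≤ Real.log ‖gam A B c s‖ := by
    apply Real.log_nonneg
    have := Complex.abs_re_le_norm (gam A B c s)
    rw [gam_re, abs_of_pos (Real.exp_pos s)] at this
    linarith
  have h3 : (YY A B c s)^2 ≤ M^2 := by
    rw [← sq_abs]; gcongr
  have h4 : -(|B| * M) ≤ B * YY A B c s := by
    have : |B * YY A B c s| ≤ |B| * M := by rw [abs_mul]; gcongr
    linarith [neg_abs_le (B * YY A B c s)]
  have h5 : A * Real.exp s ≤ A * (Real.exp s)^2 := by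
    apply mul_le_mul_of_nonneg_left _ hA.le
    nlinarith
  have h6 : A * (YY A B c s)^2 ≤ A * M^2 := mul_le_mul_of_nonneg_left h3 hA.le
  have e : A * ((Real.exp s)^2 - (YY A B c s)^2) = A * (Real.exp s)^2 - A * (YY A B c s)^2 := by ring
  rw [e]; linarith

lemma XX_strictMono (hA : 0 < A) (c : ℝ) : StrictMono (XX A B c) := by
  rcases (continuous_XX (B := B) hA c).strictMono_of_inj (XX_injective hA c) with h | h
  · exact h
  · exfalso
    have h1 := XX_tendsto_atTop (B := B) hA c
    obtain ⟨s, hs0, hs⟩ := ((eventually_ge_atTop (1:ℝ)).and (h1.eventually_ge_atTop (XX A B c 0))).exists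
    have h2 := h (show (0:ℝ) < s by linarith)
    linarith

end Pool.Agent.H35
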