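import Mathlib
import Pool.Agent.Work.MP_35dab7_an.Level

/-!
Helper file for the negative answer to MP_35dab7_an.
The kernels with positive real part and their primitives against `F'`.
-/

set_option autoImplicit false

open Complex Set Filter Topology

namespace Pool.Agent.H35

variable {A B : ℝ}

/-- the base point -/
noncomputable def bb : ℂ := 1 + I

/-- the pole of the kernel -/
noncomputable def pp (x : ℂ) : ℂ := I * (1 - x)

/-- the kernel -/
noncomputable def HH (x u : ℂ) : ℂ := (1 + x^2) / (u - pp x) + I * x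

/-- its primitive against `F'` -/
noncomputable def KK (A B : ℝ) (x u : ℂ) : ℂ :=
  (1 + x^2) * (2 * A * u + (2 * A * pp x - I * B + (pp x)⁻¹) * Complex.log (u - pp x)
    - (pp x)⁻¹ * Complex.log u) + I * x * FF A B u

lemma KK_hasDerivAt {x u : ℂ} (hx : pp x ≠ 0) (hu : u ∈ slitPlane)
    (hux : u - pp x ∈ slitPlane) :
    HasDerivAt (KK A B x) (HH x u * FD A B u) u := by
  have h1 : HasDerivAt (fun u : ℂ => u - pp x) 1 u := (hasDerivAt_id u).sub_const _
  have h2 : HasDerivAt (fun u : ℂ => Complex.log (u - pp x)) ((u - pp x)⁻¹ * 1) u :=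
    HasDerivAt.comp (h₂ := Complex.log) (h := fun u : ℂ => u - pp x) u
      (Complex.hasDerivAt_log hux) h1
  have h3 : HasDerivAt (fun u : ℂ => (2 * A : ℂ) * u) (2 * A * 1) u :=
    (hasDerivAt_id u).const_mul _
  have h4 := ((h3.add (h2.const_mul (2 * A * pp x - I * B + (pp x)⁻¹))).sub
    ((Complex.hasDerivAt_log hu).const_mul (pp x)⁻¹)).const_mul (1 + x^2)
  have h5 := h4.add ((FF_hasDerivAt (A := A) (B := B) hu).const_mul (I * x))
  have hu0 : u ≠ 0 := slitPlane_ne_zero hu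
  have hux0 : u - pp x ≠ 0 := slitPlane_ne_zero hux
  have e : HH x u * FD A B u = (1 + x^2) * (2 * A * 1 + (2 * A * pp x - I * B + (pp x)⁻¹)
      * ((u - pp x)⁻¹ * 1) - (pp x)⁻¹ * u⁻¹) + I * x * FD A B u := by
    unfold HH
    have e2 : FD A B u / (u - pp x) = (2 * A * 1 + (2 * A * pp x - I * B + (pp x)⁻¹)
      * ((u - pp x)⁻¹ * 1) - (pp x)⁻¹ * u⁻¹) := by
      unfold FD
      field_simp
      ring
    rw [← e2]; ring
  rw [e]
  exact h5

lemma pp_re (x : ℂ) : (pp x).re = x.im := by unfold pp; simp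
lemma pp_im (x : ℂ) : (pp x).im = 1 - x.re := by unfold pp; simp

lemma pp_ne {x : ℂ} (hx : x.im < 0) : pp x ≠ 0 := by
  intro h
  have := pp_re x
  rw [h] at this
  simp at this
  linarith

lemma sub_pp_re {x u : ℂ} : (u - pp x).re = u.re - x.im := by
  rw [Complex.sub_re, pp_re]

lemma sub_pp_slit {x u : ℂ} (hx : x.im < 0) (hu : 0 ≤ u.re) : u - pp x ∈ slitPlane := by
  left; rw [sub_pp_re]; linarith

lemma HH_eq {x u : ℂ} (h : u - pp x ≠ 0) : HH x u = (1 + x + I * x * u) / (u - pp x) := by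
  unfold HH
  rw [eq_div_iff h, add_mul, div_mul_cancel₀ _ h]
  unfold pp
  linear_combination (-x + x^2) * I_sq

lemma HH_re_pos {x u : ℂ} (hx : x.im < 0) (hu : u ∈ HP) : 0 < (HH x u).re := by
  have hu0 : 0 < u.re := hu
  have hne : u - pp x ≠ 0 := slitPlane_ne_zero (sub_pp_slit hx hu0.le)
  rw [HH_eq hne, Complex.div_re, ← add_div]
  apply div_pos _ (Complex.normSq_pos.mpr hne)
  rw [Complex.sub_re, Complex.sub_im, pp_re, pp_im]
  have e1 : (1 + x + I * x * u).re = 1 + x.re - x.im * u.re - x.re * u.im := by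
    simp; ring
  have e2 : (1 + x + I * x * u).im = x.im + x.re * u.re - x.im * u.im := by
    simp; ring
  rw [e1, e2]
  have key : (1 + x.re - x.im * u.re - x.re * u.im) * (u.re - x.im)
      + (x.im + x.re * u.re - x.im * u.im) * (u.im - (1 - x.re))
      = u.re * (1 + x.im^2 + x.re^2) + (-x.im) * (1 + u.re^2 + (u.im - 1)^2) := by
    ring
  rw [key]
  have hx' : 0 < -x.im := by linarith
  positivity

/-- the disc coordinate -/
noncomputable def psi (w : ℂ) : ℂ := (bb + (starRingEnd ℂ) bb * w) / (1 - w)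

lemma conj_bb : (starRingEnd ℂ) bb = 1 - I := by
  unfold bb; simp [Complex.ext_iff]

lemma one_sub_ne {w : ℂ} (hw : ‖w‖ < 1) : 1 - w ≠ 0 := by
  intro h
  have : w = 1 := by linear_combination -h
  rw [this] at hw; simp at hw

lemma psi_mem {w : ℂ} (hw : ‖w‖ < 1) : psi w ∈ HP := by
  have hne := one_sub_ne hw
  change 0 < (psi w).re
  unfold psi
  rw [conj_bb, Complex.div_re, ← add_div]
  apply div_pos _ (Complex.normSq_pos.mpr hne)
  have e : (bb + (1 - I) * w).re * (1 - w).re + (bb + (1 - I) * w).im * (1 - w).im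
      = 1 - Complex.normSq w := by
    unfold bb
    simp [Complex.normSq_apply]; ring
  rw [e, Complex.normSq_eq_norm_sq]
  nlinarith [norm_nonneg w]

lemma psi_zero : psi 0 = bb := by unfold psi; simp

lemma bb_mem : bb ∈ HP := by unfold HP bb; simp

lemma psi_hasDerivAt {w : ℂ} (hw : ‖w‖ < 1) : HasDerivAt psi (2 / (1 - w)^2) w := by
  have hne := one_sub_ne hw
  have h1 : HasDerivAt (fun w : ℂ => bb + (starRingEnd ℂ) bb * w) ((starRingEnd ℂ) bb * 1) w :=
    ((hasDerivAt_id w).const_mul _).const_add _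
  have h2 : HasDerivAt (fun w : ℂ => 1 - w) (-1) w := (hasDerivAt_id w).const_sub 1
  have h3 := h1.div h2 hne
  have e : (2 : ℂ) / (1 - w)^2 = ((starRingEnd ℂ) bb * 1 * (1 - w)
      - (bb + (starRingEnd ℂ) bb * w) * -1) / (1 - w)^2 := by
    congr 1
    rw [conj_bb]; unfold bb; ring
  rw [e]; exact h3

lemma psi_injOn : InjOn psi {w : ℂ | ‖w‖ < 1} := by
  intro w hw z hz h
  have h1 := one_sub_ne hw
  have h2 := one_sub_ne hz
  unfold psi at h
  rw [div_eq_div_iff h1 h2, conj_bb] at h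
  unfold bb at h
  linear_combination (1/2) * h

lemma psi_surj {u : ℂ} (hu : u ∈ HP) : ∃ w : ℂ, ‖w‖ < 1 ∧ psi w = u := by
  have hu0 : 0 < u.re := hu
  have hne : u + (1 - I) ≠ 0 := by
    intro h
    have := congrArg Complex.re h
    simp at this
    linarith
  refine ⟨(u - bb) / (u + (1 - I)), ?_, ?_⟩
  · rw [norm_div, div_lt_one (norm_pos_iff.mpr hne)]
    rw [← sq_lt_sq₀ (norm_nonneg _) (norm_nonneg _), ← Complex.normSq_eq_norm_sq,
      ← Complex.normSq_eq_norm_sq, Complex.normSq_apply, Complex.normSq_apply]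
    unfold bb
    simp
    nlinarith
  · unfold psi
    rw [conj_bb]
    have h3 : 1 - (u - bb) / (u + (1 - I)) = 2 / (u + (1 - I)) := by
      field_simp; unfold bb; ring
    have h4 : bb + (1 - I) * ((u - bb) / (u + (1 - I))) = 2 * u / (u + (1 - I)) := by
      field_simp; unfold bb
      ring
    rw [h3, h4]
    field_simp

lemma HH_psi {x w : ℂ} (hx : x.im < 0) (hw : ‖w‖ < 1) :
    HH x (psi w) = ((I * x + 1) + (I * x - 1) * w) / ((I * x + 1) - (I * x - 1) * w) := by
  have hne := one_sub_ne hw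
  have hp : psi w - pp x ≠ 0 := slitPlane_ne_zero (sub_pp_slit hx (le_of_lt (psi_mem hw)))
  rw [HH_eq hp]
  have e1 : psi w - pp x = ((I * x + 1) - (I * x - 1) * w) / (1 - w) := by
    unfold psi pp; rw [conj_bb]; unfold bb
    field_simp; ring
  have e2 : 1 + x + I * x * psi w = ((I * x + 1) + (I * x - 1) * w) / (1 - w) := by
    unfold psi; rw [conj_bb]; unfold bb
    field_simp
    linear_combination (x - x * w) * I_sq
  rw [e1, e2, div_div_div_cancel_right₀ hne]

lemma norm_lt_of_im_neg {x : ℂ} (hx : x.im < 0) : ‖I * x - 1‖ < ‖I * x + 1‖ := by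
  rw [← sq_lt_sq₀ (norm_nonneg _) (norm_nonneg _), ← Complex.normSq_eq_norm_sq,
      ← Complex.normSq_eq_norm_sq, Complex.normSq_apply, Complex.normSq_apply]
  simp
  nlinarith

lemma HH_psi_bound {x : ℂ} (hx : x.im < 0) : ∃ C : ℝ, 0 ≤ C ∧ ∀ w : ℂ, ‖w‖ < 1 →
    ‖HH x (psi w)‖ ≤ C := by
  have h := norm_lt_of_im_neg hx
  refine ⟨(‖I * x + 1‖ + ‖I * x - 1‖) / (‖I * x + 1‖ - ‖I * x - 1‖), ?_, ?_⟩
  · apply div_nonneg (by positivity); linarith
  · intro w hw
    rw [HH_psi hx hw, norm_div]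
    have h1 : ‖(I * x - 1) * w‖ ≤ ‖I * x - 1‖ := by
      rw [norm_mul]
      exact mul_le_of_le_one_right (norm_nonneg _) hw.le
    apply div_le_div₀ (by positivity) _ (by linarith)
    · have := norm_sub_norm_le (I * x + 1) ((I * x - 1) * w)
      linarith
    · exact (norm_add_le _ _).trans (by linarith)

/-- change of parameter under a rotation of the disc -/
lemma HH_rot {x w : ℂ} {τ : ℝ} (hx : x.im < 0) (hx' : ((x - τ) / (1 + τ * x)).im < 0)
    (hw : ‖w‖ < 1) (hne : 1 + (τ : ℂ) * x ≠ 0) :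
    HH ((x - τ) / (1 + τ * x)) (psi ((1 - I * τ) / (1 + I * τ) * w)) = HH x (psi w) := by
  have h1 : (1 : ℂ) + I * τ ≠ 0 := by
    intro h
    have := congrArg Complex.re h
    simp at this
  have h2 : (1 : ℂ) - I * τ ≠ 0 := by
    intro h
    have := congrArg Complex.re h
    simp at this
  have hn : ‖((1 : ℂ) - I * τ) / (1 + I * τ)‖ = 1 := by
    rw [norm_div, div_eq_one_iff_eq (norm_ne_zero_iff.mpr h1)]
    have : (1 : ℂ) - I * τ = (starRingEnd ℂ) (1 + I * τ) := by simp [Complex.ext_iff]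
    rw [this, Complex.norm_conj]
  have hw' : ‖((1 : ℂ) - I * τ) / (1 + I * τ) * w‖ < 1 := by
    rw [norm_mul, hn, one_mul]; exact hw
  rw [HH_psi hx' hw', HH_psi hx hw]
  have e1 : I * ((x - τ) / (1 + τ * x)) + 1 = (I * x + 1) * (1 - I * τ) / (1 + τ * x) := by
    rw [eq_div_iff hne, add_mul, mul_assoc, div_mul_cancel₀ _ hne]
    linear_combination (x * τ) * I_sq
  have e2 : I * ((x - τ) / (1 + τ * x)) - 1 = (I * x - 1) * (1 + I * τ) / (1 + τ * x) := by
    rw [eq_div_iff hne, sub_mul, mul_assoc, div_mul_cancel₀ _ hne]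
    linear_combination (-(x * τ)) * I_sq
  rw [e1, e2]
  have e3 : (I * x - 1) * (1 + I * τ) / (1 + τ * x) * ((1 - I * τ) / (1 + I * τ) * w)
      = (I * x - 1) * w * (1 - I * τ) / (1 + τ * x) := by
    field_simp
  rw [e3]
  have e4 : (I * x + 1) * (1 - I * τ) / (1 + τ * x) + (I * x - 1) * w * (1 - I * τ) / (1 + τ * x)
    = ((I * x + 1) + (I * x - 1) * w) * ((1 - I * τ) / (1 + τ * x)) := by ring
  have e5 : (I * x + 1) * (1 - I * τ) / (1 + τ * x) - (I * x - 1) * w * (1 - I * τ) / (1 + τ * x)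
    = ((I * x + 1) - (I * x - 1) * w) * ((1 - I * τ) / (1 + τ * x)) := by ring
  rw [e4, e5]
  exact mul_div_mul_right _ _ (div_ne_zero h2 hne)

lemma rot_im_neg {x : ℂ} (τ : ℝ) (hx : x.im < 0) : ((x - τ) / (1 + τ * x)).im < 0 := by
  have hne : 1 + (τ : ℂ) * x ≠ 0 := by
    intro h
    have h1 := congrArg Complex.im h
    have h2 := congrArg Complex.re h
    simp at h1 h2
    rcases h1 with h1 | h1
    · rw [h1] at h2; simp at h2
    · linarith
  have hpos := Complex.normSq_pos.mpr hne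
  rw [Complex.div_im, ← sub_div]
  apply div_neg_of_neg_of_pos _ hpos
  simp
  nlinarith [sq_nonneg τ]

lemma rot_ne {x : ℂ} (τ : ℝ) (hx : x.im < 0) : 1 + (τ : ℂ) * x ≠ 0 := by
  intro h
  have h1 := congrArg Complex.im h
  have h2 := congrArg Complex.re h
  simp at h1 h2
  rcases h1 with h1 | h1
  · rw [h1] at h2; simp at h2
  · linarith

end Pool.Agent.H35
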