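import Mathlib
import Pool.Agent.Work.MP_35dab7_an.Level

/-!
Helper file for the negative answer to MP_35dab7_an.
Behaviour of the level curves near the boundary.
-/

set_option autoImplicit false

open Complex Set Filter Topology

namespace Pool.Agent.H35

variable {A B : ℝ}

lemma XX_le (hA : 0 < A) (c s : ℝ) :
    XX A B c s ≤ A * ‖gam A B c s‖^2 + |B| * ‖gam A B c s‖ + Real.log ‖gam A B c s‖ := by
  rw [XX_expr]
  have h1 : ‖gam A B c s‖^2 = (Real.exp s)^2 + (YY A B c s)^2 := by
    rw [← Complex.normSq_eq_norm_sq, Complex.normSq_apply, gam_re, gam_im]; ring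
  have h2 : B * YY A B c s ≤ |B| * ‖gam A B c s‖ := by
    calc B * YY A B c s ≤ |B * YY A B c s| := le_abs_self _
      _ = |B| * |YY A B c s| := abs_mul _ _
      _ ≤ |B| * ‖gam A B c s‖ := by
        gcongr
        have := Complex.abs_im_le_norm (gam A B c s)
        rwa [gam_im] at this
  have h3 : A * ((Real.exp s)^2 - (YY A B c s)^2) ≤ A * ‖gam A B c s‖^2 := by
    apply mul_le_mul_of_nonneg_left _ hA.le
    rw [h1]; nlinarith [sq_nonneg (YY A B c s)]
  linarith

lemma XX_le' (hA : 0 < A) (c s : ℝ) (hs : s ≤ 0) :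
    XX A B c s ≤ |YY A B c s| * ((|B| + 1) + -A * |YY A B c s|) + (A + 1) := by
  rw [XX_expr]
  have hx : Real.exp s ≤ 1 := Real.exp_le_one_iff.mpr hs
  have hx0 := Real.exp_pos s
  have h1 : Real.log ‖gam A B c s‖ ≤ 1 + |YY A B c s| := by
    have h2 : ‖gam A B c s‖ ≤ 1 + |YY A B c s| := by
      calc ‖gam A B c s‖ ≤ |(gam A B c s).re| + |(gam A B c s).im| :=
            Complex.norm_le_abs_re_add_abs_im _
        _ ≤ 1 + |YY A B c s| := by
            rw [gam_re, gam_im, abs_of_pos hx0]; linarith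
    have h3 : 0 < ‖gam A B c s‖ := norm_pos_iff.mpr (HP_ne (gam_mem c s))
    linarith [Real.log_le_sub_one_of_pos h3]
  have h2 : B * YY A B c s ≤ |B| * |YY A B c s| := by
    rw [← abs_mul]; exact le_abs_self _
  have h3 : A * (Real.exp s)^2 ≤ A := by
    have : (Real.exp s)^2 ≤ 1 := by nlinarith
    nlinarith
  have h4 : (YY A B c s)^2 = |YY A B c s| * |YY A B c s| := by rw [← sq_abs]; ring
  have e : A * ((Real.exp s)^2 - (YY A B c s)^2) = A * (Real.exp s)^2 - A * (|YY A B c s| * |YY A B c s|) := by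
    rw [h4]; ring
  rw [e]
  nlinarith

lemma XX_tendsto_outer (hA : 0 < A) {c : ℝ} (hc : Real.pi / 2 < |c|) :
    Tendsto (XX A B c) atBot atBot := by
  set δ : ℝ := |c| - Real.pi / 2 with hδ
  have hδ0 : 0 < δ := by rw [hδ]; linarith
  have hYlow : ∀ᶠ s in atBot, δ / (4 * A) * Real.exp (-s) ≤ |YY A B c s| := by
    have h1 : ∀ᶠ s in atBot, |B| * Real.exp s < δ / 2 := by
      have : Tendsto (fun s => |B| * Real.exp s) atBot (𝓝 (|B| * 0)) :=
        Real.tendsto_exp_atBot.const_mul _
      rw [mul_zero] at this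
      exact this.eventually_lt_const (by positivity)
    filter_upwards [h1] with s hs
    have h2 := level_eq (B := B) hA c s
    have h3 := abs_arg_lt (gam_mem (A := A) (B := B) c s)
    have h4 : |c| ≤ |2 * A * Real.exp s * YY A B c s| + |B| * Real.exp s + Real.pi / 2 := by
      calc |c| = |2 * A * Real.exp s * YY A B c s - B * Real.exp s + Complex.arg (gam A B c s)| := by
            rw [h2]
        _ ≤ |2 * A * Real.exp s * YY A B c s - B * Real.exp s| + |Complex.arg (gam A B c s)| :=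
            abs_add_le _ _
        _ ≤ (|2 * A * Real.exp s * YY A B c s| + |B * Real.exp s|) + |Complex.arg (gam A B c s)| := by
            gcongr; exact abs_sub _ _
        _ ≤ _ := by
            rw [abs_mul B, abs_of_pos (Real.exp_pos s)]
            linarith
    rw [abs_mul, abs_of_pos (by positivity : 0 < 2 * A * Real.exp s)] at h4
    have h5 : δ / 2 ≤ 2 * A * Real.exp s * |YY A B c s| := by rw [hδ] at *; linarith
    rw [Real.exp_neg]
    have hx := Real.exp_pos s
    rw [← div_eq_mul_inv, div_div, div_le_iff₀ (by positivity)]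
    linarith
  have hYtop : Tendsto (fun s => |YY A B c s|) atBot atTop := by
    refine tendsto_atTop_mono' _ hYlow ?_
    apply Tendsto.const_mul_atTop (by positivity)
    exact Real.tendsto_exp_atTop.comp tendsto_neg_atBot_atTop
  have hg : Tendsto (fun y : ℝ => y * ((|B| + 1) + -A * y) + (A + 1)) atTop atBot := by
    apply tendsto_atBot_add_const_right
    apply Tendsto.atTop_mul_atBot₀ tendsto_id
    apply tendsto_atBot_add_const_left
    exact tendsto_id.const_mul_atTop_of_neg (by linarith)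
  refine tendsto_atBot_mono' _ ?_ (hg.comp hYtop)
  filter_upwards [eventually_le_atBot (0:ℝ)] with s hs
  exact XX_le' hA c s hs

lemma norm_gam_tendsto (hA : 0 < A) {c : ℝ} (hc : |c| < Real.pi / 2) :
    Tendsto (fun s => ‖gam A B c s‖) atBot (𝓝[>] 0) := by
  obtain ⟨c', hc1, hc2⟩ := exists_between hc
  have hcos : 0 < Real.cos c' := Real.cos_pos_of_mem_Ioo ⟨by linarith [abs_nonneg c, Real.pi_pos], hc2⟩
  have harg : ∀ᶠ s in atBot, |Complex.arg (gam A B c s)| ≤ c' := by
    have h1 : ∀ᶠ s in atBot, |B| * Real.exp s < c' - |c| := by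
      have : Tendsto (fun s => |B| * Real.exp s) atBot (𝓝 (|B| * 0)) :=
        Real.tendsto_exp_atBot.const_mul _
      rw [mul_zero] at this
      exact this.eventually_lt_const (by linarith)
    filter_upwards [h1] with s hs
    have h2 := level_eq (B := B) hA c s
    have h3 : |B * Real.exp s| = |B| * Real.exp s := by
      rw [abs_mul, abs_of_pos (Real.exp_pos s)]
    have h4 := le_abs_self (B * Real.exp s)
    have h5 := neg_abs_le (B * Real.exp s)
    have h6 := le_abs_self c
    have h7 := neg_abs_le c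
    rcases le_or_gt 0 (YY A B c s) with hY | hY
    · have h8 : 0 ≤ Complex.arg (gam A B c s) := by
        rw [Complex.arg_nonneg_iff, gam_im]; exact hY
      rw [abs_of_nonneg h8]
      have h9 : 0 ≤ 2 * A * Real.exp s * YY A B c s := by positivity
      linarith
    · have h8 : Complex.arg (gam A B c s) < 0 := by
        rw [Complex.arg_neg_iff, gam_im]; exact hY
      rw [abs_of_neg h8]
      have h9 : 2 * A * Real.exp s * YY A B c s ≤ 0 :=
        mul_nonpos_of_nonneg_of_nonpos (by positivity) hY.le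
      linarith
  have hup : ∀ᶠ s in atBot, ‖gam A B c s‖ ≤ Real.exp s / Real.cos c' := by
    filter_upwards [harg] with s hs
    have h1 : ‖gam A B c s‖ * Real.cos (Complex.arg (gam A B c s)) = Real.exp s := by
      rw [Complex.norm_mul_cos_arg, gam_re]
    have h2 : Real.cos c' ≤ Real.cos (Complex.arg (gam A B c s)) := by
      rw [← Real.cos_abs (Complex.arg (gam A B c s))]
      exact Real.cos_le_cos_of_nonneg_of_le_pi (abs_nonneg _) (by linarith [Real.pi_pos]) hs
    rw [le_div_iff₀ hcos, ← h1]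
    exact mul_le_mul_of_nonneg_left h2 (norm_nonneg _)
  rw [tendsto_nhdsWithin_iff]
  constructor
  · have h1 : Tendsto (fun s : ℝ => Real.exp s / Real.cos c') atBot (𝓝 (0 / Real.cos c')) :=
      Real.tendsto_exp_atBot.div_const _
    rw [zero_div] at h1
    exact squeeze_zero' (Eventually.of_forall (fun s => norm_nonneg _)) hup h1
  · exact Eventually.of_forall (fun s => norm_pos_iff.mpr (HP_ne (gam_mem c s)))

lemma XX_tendsto_inner (hA : 0 < A) {c : ℝ} (hc : |c| < Real.pi / 2) :
    Tendsto (XX A B c) atBot atBot := by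
  have h1 := norm_gam_tendsto (B := B) hA hc
  have hg : Tendsto (fun t : ℝ => (A * t^2 + |B| * t) + Real.log t) (𝓝[>] 0) atBot := by
    have h2 : Tendsto (fun t : ℝ => A * t^2 + |B| * t) (𝓝[>] 0) (𝓝 (A * 0^2 + |B| * 0)) := by
      apply Tendsto.mono_left _ nhdsWithin_le_nhds
      exact Continuous.tendsto (by fun_prop) 0
    exact h2.add_atBot Real.tendsto_log_nhdsGT_zero
  exact tendsto_atBot_mono (fun s => XX_le hA c s) (hg.comp h1)

lemma XX_tendsto_atBot (hA : 0 < A) {c : ℝ} (h1 : c ≠ Real.pi / 2) (h2 : c ≠ -(Real.pi / 2)) :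
    Tendsto (XX A B c) atBot atBot := by
  rcases lt_trichotomy |c| (Real.pi / 2) with h | h | h
  · exact XX_tendsto_inner hA h
  · exfalso
    rcases abs_eq (by positivity) |>.mp h with h' | h'
    · exact h1 h'
    · exact h2 h'
  · exact XX_tendsto_outer hA h

/-- sign of the increment at a boundary point -/
lemma FF_im_boundary {a : ℝ} (ha : a ≠ 0) :
    HasDerivAt (fun x : ℝ => (FF A B ((x : ℂ) + a * I)).im) (2 * A * a - B - a⁻¹) 0 := by
  have hsl : ((0:ℝ) : ℂ) + a * I ∈ slitPlane := Or.inr (by simpa using ha)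
  have h2 : HasDerivAt (fun w : ℂ => w + a * I) 1 ((0 : ℝ) : ℂ) :=
    (hasDerivAt_id _).add_const _
  have h0 : HasDerivAt (fun w : ℂ => FF A B (w + a * I))
      (FD A B (((0:ℝ) : ℂ) + a * I) * 1) ((0:ℝ) : ℂ) :=
    HasDerivAt.comp (h₂ := FF A B) (h := fun w : ℂ => w + a * I) ((0:ℝ) : ℂ)
      (FF_hasDerivAt (A := A) (B := B) hsl) h2
  have h1 : HasDerivAt (fun w : ℂ => -I * FF A B (w + a * I))
      (-I * (FD A B (((0:ℝ) : ℂ) + a * I) * 1)) ((0:ℝ) : ℂ) := h0.const_mul _
  have h3 := h1.real_of_complex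
  have e1 : (-I * (FD A B (((0:ℝ) : ℂ) + a * I) * 1)).re = 2 * A * a - B - a⁻¹ := by
    have : -I * (FD A B (((0:ℝ) : ℂ) + a * I) * 1) = ((2 * A * a - B - a⁻¹ : ℝ) : ℂ) := by
      unfold FD
      have ha' : (a : ℂ) ≠ 0 := by exact_mod_cast ha
      push_cast
      rw [zero_add, mul_inv, Complex.inv_I]
      linear_combination (-2 * (A:ℂ) * a + B + (a:ℂ)⁻¹) * I_sq
    rw [this, Complex.ofReal_re]
  rw [e1] at h3
  have e2 : (fun x : ℝ => (-I * FF A B ((x : ℂ) + a * I)).re)
      = (fun x : ℝ => (FF A B ((x : ℂ) + a * I)).im) := by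
    funext y; simp
  rwa [e2] at h3

lemma FF_im_zero (a : ℝ) : (FF A B (((0:ℝ) : ℂ) + a * I)).im = Complex.arg ((a : ℂ) * I) := by
  rw [FF_im]; simp

lemma eventually_lt_of_neg {φ : ℝ → ℝ} {p : ℝ} (h : HasDerivAt φ p 0) (hp : p < 0) :
    ∀ᶠ x in 𝓝[>] (0:ℝ), φ x < φ 0 := by
  have h1 := hasDerivAt_iff_tendsto_slope.mp h
  have h2 : ∀ᶠ x in 𝓝[≠] (0:ℝ), slope φ 0 x < 0 := h1.eventually_lt_const hp
  have h3 : ∀ᶠ x in 𝓝[>] (0:ℝ), slope φ 0 x < 0 :=
    h2.filter_mono (nhdsWithin_mono _ (fun x hx => ne_of_gt hx))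
  filter_upwards [h3, self_mem_nhdsWithin] with x hx hx0
  have hx0' : 0 < x := hx0
  rw [slope_def_field, sub_zero, div_neg_iff] at hx
  rcases hx with h | h
  · linarith [h.2]
  · linarith [h.1]

lemma YY_tendsto_tip (hA : 0 < A) {η : ℝ} (hη : η ≠ 0) (hp : 2 * A * η - B - η⁻¹ = 0) :
    Tendsto (YY A B (Complex.arg ((η : ℂ) * I))) atBot (𝓝 η) := by
  set c := Complex.arg ((η : ℂ) * I) with hc
  have harg : ∀ a : ℝ, 0 < a * η → Complex.arg ((a : ℂ) * I) = c := by
    intro a ha
    rw [hc]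
    rcases lt_or_gt_of_ne hη with h | h
    · have ha0 : a < 0 := by nlinarith
      rw [← Complex.arg_real_mul ((η:ℂ) * I) (div_pos_of_neg_of_neg ha0 h)]
      congr 1
      have : (η : ℂ) ≠ 0 := by exact_mod_cast hη
      push_cast; field_simp
    · have ha0 : 0 < a := by nlinarith
      rw [← Complex.arg_real_mul ((η:ℂ) * I) (div_pos ha0 h)]
      congr 1
      have : (η : ℂ) ≠ 0 := by exact_mod_cast hη
      push_cast; field_simp
  -- sign of the slope
  have hslope : ∀ a : ℝ, 0 < a * η → 2 * A * a - B - a⁻¹ = (a - η) * (2 * A + (a * η)⁻¹) := by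
    intro a ha
    have ha0 : a ≠ 0 := by rintro rfl; simp at ha
    have : 2 * A * a - B - a⁻¹ = (2 * A * a - B - a⁻¹) - (2 * A * η - B - η⁻¹) := by rw [hp]; ring
    rw [this]; field_simp; ring
  have hlow : ∀ a : ℝ, 0 < a * η → a < η → ∀ᶠ s in atBot, a < YY A B c s := by
    intro a ha hlt
    have ha0 : a ≠ 0 := by rintro rfl; simp at ha
    have h1 : 2 * A * a - B - a⁻¹ < 0 := by
      rw [hslope a ha]
      have : 0 < 2 * A + (a * η)⁻¹ := by positivity
      nlinarith
    have h2 := eventually_lt_of_neg (FF_im_boundary (A := A) (B := B) ha0) h1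
    have h3 : ∀ᶠ s in atBot, (FF A B ((Real.exp s : ℝ) + (a:ℝ) * I)).im
        < (FF A B (((0:ℝ) : ℂ) + (a:ℝ) * I)).im := Real.tendsto_exp_atBot_nhdsGT.eventually h2
    filter_upwards [h3] with s hs
    rw [FF_im_zero, harg a ha, ← YY_spec (B := B) hA c s] at hs
    exact (FF_im_strictMono (B := B) hA (Real.exp_pos s)).lt_iff_lt.mp hs
  have hup : ∀ a : ℝ, 0 < a * η → η < a → ∀ᶠ s in atBot, YY A B c s < a := by
    intro a ha hlt
    have ha0 : a ≠ 0 := by rintro rfl; simp at ha
    have h1 : 0 < 2 * A * a - B - a⁻¹ := by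
      rw [hslope a ha]
      have : 0 < 2 * A + (a * η)⁻¹ := by positivity
      nlinarith
    have h2 := eventually_lt_of_neg (φ := fun x => -(FF A B ((x : ℂ) + a * I)).im)
      (FF_im_boundary (A := A) (B := B) ha0).neg (by linarith)
    have h3 : ∀ᶠ s in atBot, -(FF A B ((Real.exp s : ℝ) + (a:ℝ) * I)).im
        < -(FF A B (((0:ℝ) : ℂ) + (a:ℝ) * I)).im := Real.tendsto_exp_atBot_nhdsGT.eventually h2
    filter_upwards [h3] with s hs
    rw [neg_lt_neg_iff, FF_im_zero, harg a ha, ← YY_spec (B := B) hA c s] at hs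
    exact (FF_im_strictMono (B := B) hA (Real.exp_pos s)).lt_iff_lt.mp hs
  rcases lt_or_gt_of_ne hη with h | h
  · refine tendsto_order.mpr ⟨fun a ha => hlow a (by nlinarith) ha, fun a ha => ?_⟩
    have hm : η < min a (η / 2) := lt_min ha (by linarith)
    have hm0 : min a (η/2) ≤ η / 2 := min_le_right _ _
    filter_upwards [hup (min a (η/2)) (by nlinarith) hm] with s hs
    exact hs.trans_le (min_le_left _ _)
  · refine tendsto_order.mpr ⟨fun a ha => ?_, fun a ha => hup a (by nlinarith) ha⟩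
    have hm : max a (η / 2) < η := max_lt ha (by linarith)
    have hm0 : η / 2 ≤ max a (η/2) := le_max_right _ _
    filter_upwards [hlow (max a (η/2)) (by nlinarith) hm] with s hs
    exact (le_max_left _ _).trans_lt hs

lemma gam_tendsto_tip (hA : 0 < A) {η : ℝ} (hη : η ≠ 0) (hp : 2 * A * η - B - η⁻¹ = 0) :
    Tendsto (gam A B (Complex.arg ((η : ℂ) * I))) atBot (𝓝[HP] ((η : ℂ) * I)) := by
  rw [tendsto_nhdsWithin_iff]
  constructor
  · have h1 := YY_tendsto_tip hA hη hp
    have h2 : Tendsto (fun s : ℝ => ((Real.exp s : ℝ) : ℂ)) atBot (𝓝 ((0:ℝ) : ℂ)) :=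
      (Complex.continuous_ofReal.tendsto 0).comp Real.tendsto_exp_atBot
    have h3 : Tendsto (fun s : ℝ => ((YY A B (Complex.arg ((η : ℂ) * I)) s : ℝ) : ℂ)) atBot
        (𝓝 ((η:ℝ) : ℂ)) := (Complex.continuous_ofReal.tendsto η).comp h1
    have h4 := h2.add (h3.mul_const I)
    rw [Complex.ofReal_zero, zero_add] at h4
    exact h4
  · exact Eventually.of_forall (fun s => gam_mem _ s)

end Pool.Agent.H35
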