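import Mathlib
import Pool.Agent.Work.MP_35dab7_an.Limits
import Pool.Agent.Work.MP_a78000_an.HolInv

/-!
Helper file for the negative answer to MP_35dab7_an.
The horizontal shear of the conformal map onto the plane minus two half-lines.
-/

set_option autoImplicit false

open Complex Set Filter Topology

namespace Pool.Agent.H35

variable {A B : ℝ}

/-- The plane minus two horizontal half-lines at heights `± π / 2`. -/
def Slit (p q : ℝ) : Set ℂ :=
  {w : ℂ | (w.im = Real.pi / 2 → p < w.re) ∧ (w.im = -(Real.pi / 2) → q < w.re)}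

lemma FF_differentiableOn : DifferentiableOn ℂ (FF A B) HP :=
  fun _ hu => (FF_hasDerivAt (HP_slit hu)).differentiableAt.differentiableWithinAt

lemma FD_ne (hA : 0 < A) {u : ℂ} (hu : u ∈ HP) : FD A B u ≠ 0 := by
  intro h
  have := FD_re_pos (B := B) hA hu
  rw [h] at this
  simp at this

lemma reK_mono (hA : 0 < A) {K Q : ℂ → ℂ} {m : ℝ}
    (hK : ∀ v ∈ HP, HasDerivAt K (Q v * FD A B v) v) (hQ : ∀ v ∈ HP, m ≤ (Q v).re)
    (c : ℝ) {s t : ℝ} (hst : s ≤ t) :
    m * (XX A B c t - XX A B c s) ≤ (K (gam A B c t)).re - (K (gam A B c s)).re := by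
  set G : ℂ → ℂ := Function.invFunOn (FF A B) HP with hG
  have hGF : ∀ u ∈ HP, G (FF A B u) = u := (FF_injOn (B := B) hA).leftInvOn_invFunOn
  have hval : ∀ r : ℝ, ((XX A B c r : ℝ) : ℂ) + c * I = FF A B (gam A B c r) := by
    intro r
    apply Complex.ext
    · rw [re_ab]; rfl
    · rw [im_ab, gam_im_eq hA]
  have hGx : ∀ r : ℝ, G (((XX A B c r : ℝ) : ℂ) + c * I) = gam A B c r := by
    intro r; rw [hval r, hGF _ (gam_mem c r)]
  have hder : ∀ r : ℝ, HasDerivAt (fun x : ℝ => (K (G ((x : ℂ) + c * I))).re)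
      ((Q (gam A B c r)).re) (XX A B c r) := by
    intro r
    have hFd := FF_hasDerivAt (A := A) (B := B) (HP_slit (gam_mem (A := A) (B := B) c r))
    have h1 : HasDerivAt G (FD A B (gam A B c r))⁻¹ (FF A B (gam A B c r)) := by
      have := Pool.Agent.HolInv.hasDerivAt_inv isOpen_HP FF_differentiableOn
        (FF_injOn (B := B) hA) (gam_mem c r) (by rw [hFd.deriv]; exact FD_ne hA (gam_mem c r))
      rw [hFd.deriv] at this
      exact this
    rw [← hval r] at h1
    have h2 : HasDerivAt (fun w : ℂ => w + c * I) 1 ((XX A B c r : ℝ) : ℂ) :=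
      (hasDerivAt_id _).add_const _
    have h3 : HasDerivAt (fun w : ℂ => G (w + c * I)) ((FD A B (gam A B c r))⁻¹ * 1)
        ((XX A B c r : ℝ) : ℂ) :=
      HasDerivAt.comp (h₂ := G) (h := fun w : ℂ => w + c * I) _ h1 h2
    have h4 : HasDerivAt K (Q (gam A B c r) * FD A B (gam A B c r))
        (G (((XX A B c r : ℝ) : ℂ) + c * I)) := by
      rw [hGx r]; exact hK _ (gam_mem c r)
    have h5 : HasDerivAt (fun w : ℂ => K (G (w + c * I)))
        (Q (gam A B c r) * FD A B (gam A B c r) * ((FD A B (gam A B c r))⁻¹ * 1))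
        ((XX A B c r : ℝ) : ℂ) :=
      HasDerivAt.comp (h₂ := K) (h := fun w : ℂ => G (w + c * I)) _ h4 h3
    have e : Q (gam A B c r) * FD A B (gam A B c r) * ((FD A B (gam A B c r))⁻¹ * 1)
        = Q (gam A B c r) := by
      have := FD_ne (B := B) hA (gam_mem (A := A) (B := B) c r)
      field_simp
    rw [e] at h5
    exact h5.real_of_complex
  have hmono := XX_strictMono (B := B) hA c
  have hsurj : ∀ x ∈ Icc (XX A B c s) (XX A B c t), ∃ r, XX A B c r = x := by
    intro x hx
    obtain ⟨r, _, hr⟩ := intermediate_value_Icc hst (continuous_XX (B := B) hA c).continuousOn hx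
    exact ⟨r, hr⟩
  have key := Convex.mul_sub_le_image_sub_of_le_deriv
    (convex_Icc (XX A B c s) (XX A B c t)) (f := fun x : ℝ => (K (G ((x : ℂ) + c * I))).re)
    (C := m)
    (by
      intro x hx
      obtain ⟨r, rfl⟩ := hsurj x hx
      exact (hder r).continuousAt.continuousWithinAt)
    (by
      intro x hx
      obtain ⟨r, rfl⟩ := hsurj x (interior_subset hx)
      exact (hder r).differentiableAt.differentiableWithinAt)
    (by
      intro x hx
      obtain ⟨r, rfl⟩ := hsurj x (interior_subset hx)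
      rw [(hder r).deriv]
      exact hQ _ (gam_mem c r))
    (XX A B c s) (left_mem_Icc.mpr (hmono.monotone hst))
    (XX A B c t) (right_mem_Icc.mpr (hmono.monotone hst)) (hmono.monotone hst)
  simp only [hGx] at key
  exact key

/-- the sheared map -/
noncomputable def shear (A B : ℝ) (K : ℂ → ℂ) (v : ℂ) : ℂ :=
  ((K v).re : ℂ) + ((FF A B v).im : ℝ) * I

lemma shear_re (K : ℂ → ℂ) (v : ℂ) : (shear A B K v).re = (K v).re := by
  unfold shear; rw [re_ab]

lemma shear_im (K : ℂ → ℂ) (v : ℂ) : (shear A B K v).im = (FF A B v).im := by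
  unfold shear; rw [im_ab]

theorem shear_injOn (hA : 0 < A) {K Q : ℂ → ℂ} {m : ℝ} (hm : 0 < m)
    (hK : ∀ v ∈ HP, HasDerivAt K (Q v * FD A B v) v) (hQ : ∀ v ∈ HP, m ≤ (Q v).re) :
    InjOn (shear A B K) HP := by
  intro u hu v hv huv
  have him : (FF A B u).im = (FF A B v).im := by
    rw [← shear_im K u, ← shear_im K v, huv]
  have hre : (K u).re = (K v).re := by
    rw [← shear_re (A := A) (B := B) K u, ← shear_re (A := A) (B := B) K v, huv]
  obtain ⟨s, rfl⟩ := gam_surj hA hu him
  obtain ⟨t, ht⟩ := gam_surj hA hv (rfl : (FF A B v).im = (FF A B v).im)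
  set c := (FF A B v).im with hc
  rw [← ht] at hre ⊢
  rcases lt_trichotomy s t with h | h | h
  · exfalso
    have h1 := reK_mono hA hK hQ c h.le
    have h2 := XX_strictMono (B := B) hA c h
    have h3 : 0 < m * (XX A B c t - XX A B c s) := mul_pos hm (by linarith)
    linarith
  · rw [h]
  · exfalso
    have h1 := reK_mono hA hK hQ c h.le
    have h2 := XX_strictMono (B := B) hA c h
    have h3 : 0 < m * (XX A B c s - XX A B c t) := mul_pos hm (by linarith)
    linarith

lemma arg_pos_mul_I {η : ℝ} (h : 0 < η) : Complex.arg ((η : ℂ) * I) = Real.pi / 2 := by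
  rw [Complex.arg_real_mul _ h, Complex.arg_I]

lemma arg_neg_mul_I {η : ℝ} (h : η < 0) : Complex.arg ((η : ℂ) * I) = -(Real.pi / 2) := by
  have e : (η : ℂ) * I = ((-η : ℝ) : ℂ) * (-I) := by push_cast; ring
  rw [e, Complex.arg_real_mul _ (by linarith), Complex.arg_neg_I]

lemma continuous_reK (hA : 0 < A) {K Q : ℂ → ℂ}
    (hK : ∀ v ∈ HP, HasDerivAt K (Q v * FD A B v) v) (c : ℝ) :
    Continuous (fun s => (K (gam A B c s)).re) := by
  rw [continuous_iff_continuousAt]
  intro s
  have h1 : ContinuousAt K (gam A B c s) := (hK _ (gam_mem c s)).continuousAt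
  have h2 : ContinuousAt (fun s => K (gam A B c s)) s :=
    ContinuousAt.comp' h1 (continuous_gam hA c).continuousAt
  exact Complex.continuous_re.continuousAt.comp' h2

lemma reK_tendsto_atTop (hA : 0 < A) {K Q : ℂ → ℂ} {m : ℝ} (hm : 0 < m)
    (hK : ∀ v ∈ HP, HasDerivAt K (Q v * FD A B v) v) (hQ : ∀ v ∈ HP, m ≤ (Q v).re) (c : ℝ) :
    Tendsto (fun s => (K (gam A B c s)).re) atTop atTop := by
  have h1 : Tendsto (fun s => m * (XX A B c s - XX A B c 0) + (K (gam A B c 0)).re)
      atTop atTop := by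
    apply tendsto_atTop_add_const_right
    apply Tendsto.const_mul_atTop hm
    simp only [sub_eq_add_neg]
    exact tendsto_atTop_add_const_right _ _ (XX_tendsto_atTop hA c)
  refine tendsto_atTop_mono' _ ?_ h1
  filter_upwards [eventually_ge_atTop (0:ℝ)] with s hs
  have := reK_mono hA hK hQ c hs
  linarith

lemma reK_tendsto_atBot (hA : 0 < A) {K Q : ℂ → ℂ} {m : ℝ} (hm : 0 < m)
    (hK : ∀ v ∈ HP, HasDerivAt K (Q v * FD A B v) v) (hQ : ∀ v ∈ HP, m ≤ (Q v).re) {c : ℝ}
    (hc1 : c ≠ Real.pi / 2) (hc2 : c ≠ -(Real.pi / 2)) :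
    Tendsto (fun s => (K (gam A B c s)).re) atBot atBot := by
  have h1 : Tendsto (fun s => m * (XX A B c s - XX A B c 0) + (K (gam A B c 0)).re)
      atBot atBot := by
    apply tendsto_atBot_add_const_right
    apply Tendsto.const_mul_atBot hm
    simp only [sub_eq_add_neg]
    exact tendsto_atBot_add_const_right _ _ (XX_tendsto_atBot hA hc1 hc2)
  refine tendsto_atBot_mono' _ ?_ h1
  filter_upwards [eventually_le_atBot (0:ℝ)] with s hs
  have := reK_mono hA hK hQ c hs
  linarith

lemma reK_strictMono (hA : 0 < A) {K Q : ℂ → ℂ} {m : ℝ} (hm : 0 < m)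
    (hK : ∀ v ∈ HP, HasDerivAt K (Q v * FD A B v) v) (hQ : ∀ v ∈ HP, m ≤ (Q v).re) (c : ℝ) :
    StrictMono (fun s => (K (gam A B c s)).re) := by
  intro s t h
  have h1 := reK_mono hA hK hQ c h.le
  have h2 := XX_strictMono (B := B) hA c h
  have h3 : 0 < m * (XX A B c t - XX A B c s) := mul_pos hm (by linarith)
  simp only
  linarith

lemma range_of_limits {φ : ℝ → ℝ} (hc : Continuous φ) (hm : StrictMono φ)
    (htop : Tendsto φ atTop atTop) {a : ℝ} (hbot : Tendsto φ atBot (𝓝 a)) :
    Set.range φ = Set.Ioi a := by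
  apply Subset.antisymm
  · rintro _ ⟨s, rfl⟩
    have h1 : φ (s - 1) < φ s := hm (by linarith)
    have h2 : a ≤ φ (s - 1) := by
      refine le_of_tendsto hbot ?_
      filter_upwards [eventually_le_atBot (s - 1)] with r hr
      exact hm.monotone hr
    exact lt_of_le_of_lt h2 h1
  · intro x hx
    have hx' : a < x := hx
    obtain ⟨s, hs⟩ := (hbot.eventually_lt_const hx').exists
    obtain ⟨t, ht⟩ := (htop.eventually_gt_atTop x).exists
    exact mem_range_of_exists_le_of_exists_ge hc ⟨s, hs.le⟩ ⟨t, ht.le⟩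

theorem shear_image (hA : 0 < A) {K Q : ℂ → ℂ} {m : ℝ} (hm : 0 < m)
    (hK : ∀ v ∈ HP, HasDerivAt K (Q v * FD A B v) v) (hQ : ∀ v ∈ HP, m ≤ (Q v).re)
    {η₁ η₂ a₁ a₂ : ℝ} (h1 : 0 < η₁) (h2 : η₂ < 0)
    (hp1 : 2 * A * η₁ - B - η₁⁻¹ = 0) (hp2 : 2 * A * η₂ - B - η₂⁻¹ = 0)
    (hl1 : Tendsto (fun v => (K v).re) (𝓝[HP] ((η₁ : ℂ) * I)) (𝓝 a₁))
    (hl2 : Tendsto (fun v => (K v).re) (𝓝[HP] ((η₂ : ℂ) * I)) (𝓝 a₂)) :
    shear A B K '' HP = Slit a₁ a₂ := by
  have hr1 : Set.range (fun s => (K (gam A B (Real.pi / 2) s)).re) = Set.Ioi a₁ := by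
    refine range_of_limits (continuous_reK hA hK _) (reK_strictMono hA hm hK hQ _)
      (reK_tendsto_atTop hA hm hK hQ _) ?_
    have := gam_tendsto_tip hA h1.ne' hp1
    rw [arg_pos_mul_I h1] at this
    exact hl1.comp this
  have hr2 : Set.range (fun s => (K (gam A B (-(Real.pi / 2)) s)).re) = Set.Ioi a₂ := by
    refine range_of_limits (continuous_reK hA hK _) (reK_strictMono hA hm hK hQ _)
      (reK_tendsto_atTop hA hm hK hQ _) ?_
    have := gam_tendsto_tip hA h2.ne hp2
    rw [arg_neg_mul_I h2] at this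
    exact hl2.comp this
  apply Subset.antisymm
  · rintro _ ⟨v, hv, rfl⟩
    obtain ⟨s, hs⟩ := gam_surj hA hv (rfl : (FF A B v).im = (FF A B v).im)
    constructor
    · intro him
      rw [shear_im] at him
      rw [him] at hs
      rw [shear_re, ← hs]
      have : (K (gam A B (Real.pi / 2) s)).re ∈ Set.Ioi a₁ := by
        rw [← hr1]; exact ⟨s, rfl⟩
      exact this
    · intro him
      rw [shear_im] at him
      rw [him] at hs
      rw [shear_re, ← hs]
      have : (K (gam A B (-(Real.pi / 2)) s)).re ∈ Set.Ioi a₂ := by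
        rw [← hr2]; exact ⟨s, rfl⟩
      exact this
  · intro w hw
    have hex : ∃ s, (K (gam A B w.im s)).re = w.re := by
      by_cases hc1 : w.im = Real.pi / 2
      · have : w.re ∈ Set.range (fun s => (K (gam A B (Real.pi / 2) s)).re) := by
          rw [hr1]; exact hw.1 hc1
        rw [hc1]; exact this
      · by_cases hc2 : w.im = -(Real.pi / 2)
        · have : w.re ∈ Set.range (fun s => (K (gam A B (-(Real.pi / 2)) s)).re) := by
            rw [hr2]; exact hw.2 hc2
          rw [hc2]; exact this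
        · exact (continuous_reK hA hK w.im).surjective (reK_tendsto_atTop hA hm hK hQ _)
            (reK_tendsto_atBot hA hm hK hQ hc1 hc2) w.re
    obtain ⟨s, hs⟩ := hex
    refine ⟨gam A B w.im s, gam_mem _ _, ?_⟩
    apply Complex.ext
    · rw [shear_re, hs]
    · rw [shear_im, gam_im_eq hA]

end Pool.Agent.H35
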