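import Mathlib
import Pool.Agent.Work.MP_35dab7_an.Kernel
import Pool.Agent.Work.MP_35dab7_an.Shear

/-!
Helper file for the negative answer to MP_35dab7_an.
Values of the primitives at the tips.
-/

set_option autoImplicit false

open Complex Set Filter Topology

namespace Pool.Agent.H35

variable {A B : ℝ}

/-- difference between the values at a tip and at the base point -/
noncomputable def TT (A B η : ℝ) (x : ℂ) : ℝ := (KK A B x ((η : ℂ) * I)).re - (KK A B x bb).re

lemma arg_one_add (X : ℝ) : Complex.arg (1 + X * I) = Real.arctan X := by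
  have h := Complex.tan_arg (1 + X * I)
  have e : (1 + (X : ℂ) * I).im / (1 + (X : ℂ) * I).re = X := by simp
  rw [e] at h
  have h2 : |Complex.arg (1 + X * I)| < Real.pi / 2 :=
    Complex.abs_arg_lt_pi_div_two_iff.mpr (Or.inl (by simp))
  rw [abs_lt] at h2
  have h3 := Real.arctan_tan h2.1 h2.2
  rw [h] at h3
  exact h3.symm

lemma arg_bb : Complex.arg bb = Real.pi / 4 := by
  have := arg_one_add 1
  rw [Real.arctan_one] at this
  rw [← this]
  unfold bb
  simp

lemma FF_im_bb : (FF A B bb).im = 2 * A - B + Real.pi / 4 := by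
  have h := FF_im (A := A) (B := B) 1 1
  have e : ((1 : ℝ) : ℂ) + (1 : ℝ) * I = bb := by unfold bb; simp
  rw [e, arg_bb] at h
  rw [h]; ring

lemma FF_im_tip (η : ℝ) : (FF A B ((η : ℂ) * I)).im = Complex.arg ((η : ℂ) * I) := by
  have h := FF_im_zero (A := A) (B := B) η
  simpa using h

lemma TT_real (X η : ℝ) : TT A B η X = (1 + X^2) *
    (-(2 * A * (1 - X) - B - (1 - X)⁻¹) * (Complex.arg (((η - (1 - X) : ℝ) : ℂ) * I)
      - Real.arctan X) - (1 - X)⁻¹ * (Complex.arg ((η : ℂ) * I) - Real.pi / 4) - 2 * A)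
    - X * (Complex.arg ((η : ℂ) * I) - (2 * A - B + Real.pi / 4)) := by
  have hpp : pp X = ((1 - X : ℝ) : ℂ) * I := by unfold pp; push_cast; ring
  have hinv : (pp X)⁻¹ = -((((1 - X)⁻¹ : ℝ) : ℂ) * I) := by
    rw [hpp, mul_inv, Complex.inv_I]; push_cast; ring
  have h1 : (η : ℂ) * I - pp X = ((η - (1 - X) : ℝ) : ℂ) * I := by
    rw [hpp]; push_cast; ring
  have h2 : bb - pp X = 1 + X * I := by rw [hpp]; unfold bb; push_cast; ring
  have hc : 2 * (A : ℂ) * pp X - I * B + (pp X)⁻¹
      = ((2 * A * (1 - X) - B - (1 - X)⁻¹ : ℝ) : ℂ) * I := by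
    rw [hinv, hpp]; push_cast; ring
  unfold TT
  rw [← Complex.sub_re]
  have key : KK A B X ((η : ℂ) * I) - KK A B X bb = ((1 + X^2 : ℝ) : ℂ) *
      (((2 * A : ℝ) : ℂ) * ((η : ℂ) * I - bb)
      + ((2 * A * (1 - X) - B - (1 - X)⁻¹ : ℝ) : ℂ) * (I *
        (Complex.log (((η - (1 - X) : ℝ) : ℂ) * I) - Complex.log (1 + X * I)))
      + (((1 - X)⁻¹ : ℝ) : ℂ) * (I * (Complex.log ((η : ℂ) * I) - Complex.log bb)))
      + (X : ℂ) * (I * (FF A B ((η : ℂ) * I) - FF A B bb)) := by
    unfold KK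
    rw [hc, hinv, h1, h2]
    push_cast
    ring
  rw [key]
  rw [Complex.add_re, Complex.re_ofReal_mul, Complex.re_ofReal_mul, Complex.add_re,
    Complex.add_re, Complex.re_ofReal_mul, Complex.re_ofReal_mul, Complex.re_ofReal_mul]
  have eI : ∀ z : ℂ, (I * z).re = -z.im := by intro z; simp
  rw [eI, eI, eI, Complex.sub_im, Complex.sub_im, Complex.sub_im, Complex.log_im, Complex.log_im,
    Complex.log_im, Complex.log_im, arg_one_add, arg_bb, FF_im_bb, FF_im_tip]
  have e5 : ((η : ℂ) * I - bb).re = -1 := by unfold bb; simp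
  rw [e5]
  ring

lemma KK_continuousAt_param {X : ℝ} {u : ℂ} (hs : 1 - X ≠ 0) (hu : u - pp X ∈ slitPlane) :
    ContinuousAt (fun x : ℂ => KK A B x u) (X : ℂ) := by
  have hpp : pp X ≠ 0 := by
    unfold pp
    apply mul_ne_zero I_ne_zero
    exact_mod_cast hs
  have h1 : ContinuousAt pp (X : ℂ) := by unfold pp; fun_prop
  have h2 : ContinuousAt (fun x => (pp x)⁻¹) (X : ℂ) := h1.inv₀ hpp
  have h3 : ContinuousAt (fun x => Complex.log (u - pp x)) (X : ℂ) :=
    (continuousAt_const.sub h1).clog hu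
  have h4 : ContinuousAt (fun x : ℂ => 1 + x^2) (X : ℂ) := by fun_prop
  have h5 : ContinuousAt (fun x : ℂ => I * x * FF A B u) (X : ℂ) := by fun_prop
  unfold KK
  refine ContinuousAt.add (ContinuousAt.mul h4 ?_) h5
  refine ContinuousAt.sub ?_ (h2.mul continuousAt_const)
  refine ContinuousAt.add continuousAt_const (ContinuousAt.mul ?_ h3)
  exact ((continuousAt_const.mul h1).sub continuousAt_const).add h2

lemma TT_continuousAt {X η : ℝ} (hs : 1 - X ≠ 0) (hη : η - (1 - X) ≠ 0) :
    ContinuousAt (TT A B η) (X : ℂ) := by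
  have hpp : pp X = ((1 - X : ℝ) : ℂ) * I := by unfold pp; push_cast; ring
  have h1 : (η : ℂ) * I - pp X = ((η - (1 - X) : ℝ) : ℂ) * I := by
    rw [hpp]; push_cast; ring
  have h2 : bb - pp X = 1 + X * I := by rw [hpp]; unfold bb; push_cast; ring
  have k1 : ContinuousAt (fun x : ℂ => KK A B x ((η : ℂ) * I)) (X : ℂ) := by
    apply KK_continuousAt_param hs
    rw [h1]
    right
    simpa using hη
  have k2 : ContinuousAt (fun x : ℂ => KK A B x bb) (X : ℂ) := by
    apply KK_continuousAt_param hs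
    rw [h2]
    left
    simp
  unfold TT
  exact (Complex.continuous_re.continuousAt.comp' k1).sub
    (Complex.continuous_re.continuousAt.comp' k2)

/-- existence of the tips -/
lemma tips_exist (hA : 0 < A) {r : ℝ} (hr : r^2 = B^2 + 8 * A) (hr0 : |B| < r) :
    0 < (B + r) / (4 * A) ∧ (B - r) / (4 * A) < 0 ∧
    2 * A * ((B + r) / (4 * A)) - B - ((B + r) / (4 * A))⁻¹ = 0 ∧
    2 * A * ((B - r) / (4 * A)) - B - ((B - r) / (4 * A))⁻¹ = 0 := by
  have h1 := abs_lt.mp hr0
  have h2 : 0 < B + r := by linarith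
  have h3 : B - r < 0 := by linarith
  refine ⟨by positivity, div_neg_of_neg_of_pos h3 (by positivity), ?_, ?_⟩
  · rw [inv_div]
    have : B + r ≠ 0 := h2.ne'
    field_simp
    nlinarith
  · rw [inv_div]
    have : B - r ≠ 0 := h3.ne
    field_simp
    nlinarith

lemma arctan_upper {x : ℝ} (hx : 0 ≤ x) : Real.arctan x ≤ x - x^3/3 + x^5/5 := by
  have hmono : Monotone (fun x : ℝ => x - x^3/3 + x^5/5 - Real.arctan x) := by
    apply monotone_of_hasDerivAt_nonneg (f' := fun x => x^6 / (1 + x^2))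
    · intro y
      have h1 : HasDerivAt (fun x : ℝ => x - x^3/3 + x^5/5 - Real.arctan x)
          (1 - (3 * y^2 * 1) / 3 + (5 * y^4 * 1) / 5 - 1 / (1 + y^2)) y := by
        refine HasDerivAt.sub ?_ (Real.hasDerivAt_arctan y)
        refine HasDerivAt.add ?_ ?_
        · refine HasDerivAt.sub (hasDerivAt_id y) ?_
          simpa using (hasDerivAt_pow 3 y).div_const 3
        · simpa using (hasDerivAt_pow 5 y).div_const 5
      have e : y^6 / (1 + y^2) = (1 - (3 * y^2 * 1) / 3 + (5 * y^4 * 1) / 5 - 1 / (1 + y^2)) := by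
        have : (1 + y^2) ≠ 0 := by positivity
        field_simp; ring
      rw [e]; exact h1
    · intro y; simp only [Pi.zero_apply]; positivity
  have := hmono hx
  simp at this
  linarith

lemma arctan_lower {x : ℝ} (hx : 0 ≤ x) : x - x^3/3 + x^5/5 - x^7/7 ≤ Real.arctan x := by
  have hmono : Monotone (fun x : ℝ => Real.arctan x - (x - x^3/3 + x^5/5 - x^7/7)) := by
    apply monotone_of_hasDerivAt_nonneg (f' := fun x => x^8 / (1 + x^2))
    · intro y
      have h1 : HasDerivAt (fun x : ℝ => Real.arctan x - (x - x^3/3 + x^5/5 - x^7/7))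
          (1 / (1 + y^2) - (1 - (3 * y^2 * 1) / 3 + (5 * y^4 * 1) / 5 - (7 * y^6 * 1) / 7)) y := by
        refine HasDerivAt.sub (Real.hasDerivAt_arctan y) ?_
        refine HasDerivAt.sub (HasDerivAt.add ?_ ?_) ?_
        · refine HasDerivAt.sub (hasDerivAt_id y) ?_
          simpa using (hasDerivAt_pow 3 y).div_const 3
        · simpa using (hasDerivAt_pow 5 y).div_const 5
        · simpa using (hasDerivAt_pow 7 y).div_const 7
      have e : y^8 / (1 + y^2)
          = (1 / (1 + y^2) - (1 - (3 * y^2 * 1) / 3 + (5 * y^4 * 1) / 5 - (7 * y^6 * 1) / 7)) := by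
        have : (1 + y^2) ≠ 0 := by positivity
        field_simp; ring
      rw [e]; exact h1
    · intro y; simp only [Pi.zero_apply]; positivity
  have := hmono hx
  simp at this
  linarith

end Pool.Agent.H35
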