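import Mathlib
import Pool.Agent.Work.MP_35dab7_an.Tips

/-!
Helper file for the negative answer to MP_35dab7_an.
Transport of the sheared maps to the unit disc.
-/

set_option autoImplicit false

open Complex Set Filter Topology

namespace Pool.Agent.H35

variable {A B : ℝ}

/-- analytic part -/
noncomputable def hh (A B : ℝ) (K : ℂ → ℂ) (κ : ℂ) (z : ℂ) : ℂ :=
  (K (psi (κ * z)) - K bb + FF A B (psi (κ * z))) / 2

/-- co-analytic part -/
noncomputable def gg (A B : ℝ) (K : ℂ → ℂ) (κ : ℂ) (z : ℂ) : ℂ :=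
  (K (psi (κ * z)) - K bb - FF A B (psi (κ * z))) / 2

/-- the harmonic map -/
noncomputable def ff (A B : ℝ) (K : ℂ → ℂ) (κ : ℂ) (z : ℂ) : ℂ :=
  hh A B K κ z + (starRingEnd ℂ) (gg A B K κ z)

lemma half_lemma (X F : ℂ) : (X + F) / 2 + (starRingEnd ℂ) ((X - F) / 2)
    = (X.re : ℂ) + (F.im : ℝ) * I := by
  have e1 : (X + F) / 2 = ((1 / 2 : ℝ) : ℂ) * (X + F) := by push_cast; ring
  have e2 : (X - F) / 2 = ((1 / 2 : ℝ) : ℂ) * (X - F) := by push_cast; ring
  rw [e1, e2]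
  apply Complex.ext
  · rw [re_ab, Complex.add_re, Complex.conj_re, Complex.re_ofReal_mul, Complex.re_ofReal_mul,
      Complex.add_re, Complex.sub_re]
    ring
  · rw [im_ab, Complex.add_im, Complex.conj_im, Complex.im_ofReal_mul, Complex.im_ofReal_mul,
      Complex.add_im, Complex.sub_im]
    ring

lemma ff_eq (K : ℂ → ℂ) (κ z : ℂ) :
    ff A B K κ z = shear A B K (psi (κ * z)) - ((K bb).re : ℂ) := by
  unfold ff hh gg
  rw [half_lemma]
  unfold shear
  rw [Complex.sub_re]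
  push_cast
  ring

lemma norm_rot {κ z : ℂ} (hκ : ‖κ‖ = 1) (hz : z ∈ Metric.ball (0 : ℂ) 1) : ‖κ * z‖ < 1 := by
  rw [norm_mul, hκ, one_mul]; simpa using hz

lemma comp_hasDerivAt {K Q : ℂ → ℂ} (hK : ∀ v ∈ HP, HasDerivAt K (Q v * FD A B v) v)
    {κ z : ℂ} (hκ : ‖κ‖ = 1) (hz : z ∈ Metric.ball (0 : ℂ) 1) :
    HasDerivAt (fun z => K (psi (κ * z)))
      (Q (psi (κ * z)) * FD A B (psi (κ * z)) * (2 / (1 - κ * z)^2 * κ)) z := by
  have hz' := norm_rot hκ hz
  have h1 : HasDerivAt (fun z : ℂ => κ * z) κ z := by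
    simpa using (hasDerivAt_id z).const_mul κ
  have h2 : HasDerivAt (fun z : ℂ => psi (κ * z)) (2 / (1 - κ * z)^2 * κ) z :=
    HasDerivAt.comp (h₂ := psi) (h := fun z : ℂ => κ * z) z (psi_hasDerivAt hz') h1
  exact HasDerivAt.comp (h₂ := K) (h := fun z : ℂ => psi (κ * z)) z (hK _ (psi_mem hz')) h2

lemma FFcomp_hasDerivAt {κ z : ℂ} (hκ : ‖κ‖ = 1) (hz : z ∈ Metric.ball (0 : ℂ) 1) :
    HasDerivAt (fun z => FF A B (psi (κ * z)))
      (FD A B (psi (κ * z)) * (2 / (1 - κ * z)^2 * κ)) z := by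
  have := comp_hasDerivAt (A := A) (B := B) (K := FF A B) (Q := fun _ => 1)
    (fun v hv => by rw [one_mul]; exact FF_hasDerivAt (HP_slit hv)) hκ hz
  rwa [one_mul] at this

lemma hh_hasDerivAt {K Q : ℂ → ℂ} (hK : ∀ v ∈ HP, HasDerivAt K (Q v * FD A B v) v)
    {κ z : ℂ} (hκ : ‖κ‖ = 1) (hz : z ∈ Metric.ball (0 : ℂ) 1) :
    HasDerivAt (hh A B K κ)
      ((Q (psi (κ * z)) + 1) * (FD A B (psi (κ * z)) / (1 - κ * z)^2 * κ)) z := by
  have h1 := (((comp_hasDerivAt hK hκ hz).sub_const (K bb)).add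
    (FFcomp_hasDerivAt (A := A) (B := B) hκ hz)).div_const 2
  have e : (Q (psi (κ * z)) + 1) * (FD A B (psi (κ * z)) / (1 - κ * z)^2 * κ)
    = (Q (psi (κ * z)) * FD A B (psi (κ * z)) * (2 / (1 - κ * z)^2 * κ)
      + FD A B (psi (κ * z)) * (2 / (1 - κ * z)^2 * κ)) / 2 := by ring
  rw [e]; exact h1

lemma gg_hasDerivAt {K Q : ℂ → ℂ} (hK : ∀ v ∈ HP, HasDerivAt K (Q v * FD A B v) v)
    {κ z : ℂ} (hκ : ‖κ‖ = 1) (hz : z ∈ Metric.ball (0 : ℂ) 1) :
    HasDerivAt (gg A B K κ)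
      ((Q (psi (κ * z)) - 1) * (FD A B (psi (κ * z)) / (1 - κ * z)^2 * κ)) z := by
  have h1 := (((comp_hasDerivAt hK hκ hz).sub_const (K bb)).sub
    (FFcomp_hasDerivAt (A := A) (B := B) hκ hz)).div_const 2
  have e : (Q (psi (κ * z)) - 1) * (FD A B (psi (κ * z)) / (1 - κ * z)^2 * κ)
    = (Q (psi (κ * z)) * FD A B (psi (κ * z)) * (2 / (1 - κ * z)^2 * κ)
      - FD A B (psi (κ * z)) * (2 / (1 - κ * z)^2 * κ)) / 2 := by ring
  rw [e]; exact h1

lemma norm_sub_lt_add {q : ℂ} (hq : 0 < q.re) : ‖q - 1‖ < ‖q + 1‖ := by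
  rw [← sq_lt_sq₀ (norm_nonneg _) (norm_nonneg _), ← Complex.normSq_eq_norm_sq,
      ← Complex.normSq_eq_norm_sq, Complex.normSq_apply, Complex.normSq_apply]
  simp
  nlinarith

lemma add_one_ne {q : ℂ} (hq : 0 < q.re) : q + 1 ≠ 0 := by
  intro h
  have := congrArg Complex.re h
  simp at this
  linarith

lemma mul_eq_div_mul_mul (a b c : ℂ) (hb : b ≠ 0) : a * c = a / b * (b * c) := by
  rw [← mul_assoc, div_mul_cancel₀ _ hb]

theorem disc_sol (hA : 0 < A) {K Q : ℂ → ℂ} {m : ℝ} (hm : 0 < m)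
    (hK : ∀ v ∈ HP, HasDerivAt K (Q v * FD A B v) v) (hQ : ∀ v ∈ HP, m ≤ (Q v).re)
    {η₁ η₂ a₁ a₂ : ℝ} (h1 : 0 < η₁) (h2 : η₂ < 0)
    (hp1 : 2 * A * η₁ - B - η₁⁻¹ = 0) (hp2 : 2 * A * η₂ - B - η₂⁻¹ = 0)
    (hl1 : Tendsto (fun v => (K v).re) (𝓝[HP] ((η₁ : ℂ) * I)) (𝓝 a₁))
    (hl2 : Tendsto (fun v => (K v).re) (𝓝[HP] ((η₂ : ℂ) * I)) (𝓝 a₂))
    {κ : ℂ} (hκ : ‖κ‖ = 1) {ω : ℂ → ℂ}
    (hω : ∀ z ∈ Metric.ball (0 : ℂ) 1, ω z = (Q (psi (κ * z)) - 1) / (Q (psi (κ * z)) + 1)) :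
    DifferentiableOn ℂ (hh A B K κ) (Metric.ball 0 1) ∧
    DifferentiableOn ℂ (gg A B K κ) (Metric.ball 0 1) ∧
    (∀ z ∈ Metric.ball (0 : ℂ) 1, ‖deriv (gg A B K κ) z‖ < ‖deriv (hh A B K κ) z‖) ∧
    (∀ z ∈ Metric.ball (0 : ℂ) 1, deriv (gg A B K κ) z = ω z * deriv (hh A B K κ) z) ∧
    InjOn (ff A B K κ) (Metric.ball 0 1) ∧
    ff A B K κ '' (Metric.ball 0 1) = Slit (a₁ - (K bb).re) (a₂ - (K bb).re) ∧
    ff A B K κ 0 = ((2 * A - B + Real.pi / 4 : ℝ) : ℂ) * I ∧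
    deriv (hh A B K κ) 0 = (Q bb + 1) * (FD A B bb * κ) := by
  have hκ0 : κ ≠ 0 := by rw [← norm_ne_zero_iff, hκ]; norm_num
  refine ⟨?_, ?_, ?_, ?_, ?_, ?_, ?_, ?_⟩
  · intro z hz
    exact (hh_hasDerivAt hK hκ hz).differentiableAt.differentiableWithinAt
  · intro z hz
    exact (gg_hasDerivAt hK hκ hz).differentiableAt.differentiableWithinAt
  · intro z hz
    have hv := psi_mem (norm_rot hκ hz)
    have hq : 0 < (Q (psi (κ * z))).re := lt_of_lt_of_le hm (hQ _ hv)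
    rw [(hh_hasDerivAt hK hκ hz).deriv, (gg_hasDerivAt hK hκ hz).deriv,
      norm_mul (Q (psi (κ * z)) - 1) _, norm_mul (Q (psi (κ * z)) + 1) _]
    apply mul_lt_mul_of_pos_right (norm_sub_lt_add hq)
    rw [norm_pos_iff]
    exact mul_ne_zero (div_ne_zero (FD_ne hA hv)
      (pow_ne_zero 2 (one_sub_ne (norm_rot hκ hz)))) hκ0
  · intro z hz
    have hv := psi_mem (norm_rot hκ hz)
    have hq : 0 < (Q (psi (κ * z))).re := lt_of_lt_of_le hm (hQ _ hv)
    rw [(hh_hasDerivAt hK hκ hz).deriv, (gg_hasDerivAt hK hκ hz).deriv, hω z hz]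
    exact mul_eq_div_mul_mul _ _ _ (add_one_ne hq)
  · intro z hz w hw h
    rw [ff_eq, ff_eq] at h
    have h3 : shear A B K (psi (κ * z)) = shear A B K (psi (κ * w)) := by
      linear_combination h
    have h4 := shear_injOn hA hm hK hQ (psi_mem (norm_rot hκ hz)) (psi_mem (norm_rot hκ hw)) h3
    have h5 := psi_injOn (norm_rot hκ hz) (norm_rot hκ hw) h4
    exact mul_left_cancel₀ hκ0 h5
  · have him := shear_image hA hm hK hQ h1 h2 hp1 hp2 hl1 hl2
    apply Subset.antisymm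
    · rintro _ ⟨z, hz, rfl⟩
      have hmem : shear A B K (psi (κ * z)) ∈ Slit a₁ a₂ := by
        rw [← him]; exact ⟨_, psi_mem (norm_rot hκ hz), rfl⟩
      rw [ff_eq]
      constructor
      · intro h
        have := hmem.1 (by simpa using h)
        simpa using this
      · intro h
        have := hmem.2 (by simpa using h)
        simpa using this
    · intro w hw
      have hmem : w + ((K bb).re : ℂ) ∈ Slit a₁ a₂ := by
        constructor
        · intro h
          have := hw.1 (by simpa using h)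
          simp; linarith
        · intro h
          have := hw.2 (by simpa using h)
          simp; linarith
      rw [← him] at hmem
      obtain ⟨v, hv, hve⟩ := hmem
      obtain ⟨y, hy, hye⟩ := psi_surj hv
      refine ⟨κ⁻¹ * y, ?_, ?_⟩
      · rw [mem_ball_zero_iff, norm_mul, norm_inv, hκ, inv_one, one_mul]; exact hy
      · rw [ff_eq, mul_inv_cancel_left₀ hκ0, hye, hve]; ring
  · rw [ff_eq, mul_zero, psi_zero]
    apply Complex.ext
    · rw [Complex.sub_re, shear_re]; simp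
    · rw [Complex.sub_im, shear_im, FF_im_bb]; simp
  · rw [(hh_hasDerivAt hK hκ (Metric.mem_ball_self one_pos)).deriv, mul_zero, psi_zero]
    ring

/-- the plane minus the two half-lines is open -/
lemma isOpen_Slit (p q : ℝ) : IsOpen (Slit p q) := by
  have e : Slit p q = ({w : ℂ | w.im ≠ Real.pi / 2} ∪ {w : ℂ | p < w.re}) ∩
      ({w : ℂ | w.im ≠ -(Real.pi / 2)} ∪ {w : ℂ | q < w.re}) := by
    ext w
    simp only [Slit, Set.mem_ofPred_eq, mem_inter_iff, mem_union]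
    tauto
  rw [e]
  have h1 : ∀ c : ℝ, IsOpen {w : ℂ | w.im ≠ c} := fun c =>
    isOpen_ne_fun Complex.continuous_im continuous_const
  have h2 : ∀ c : ℝ, IsOpen {w : ℂ | c < w.re} := fun c =>
    isOpen_lt continuous_const Complex.continuous_re
  exact ((h1 _).union (h2 _)).inter ((h1 _).union (h2 _))

lemma Slit_ne_univ (p q : ℝ) : Slit p q ≠ univ := by
  intro h
  have h1 : ((p : ℂ) + ((Real.pi / 2 : ℝ) : ℂ) * I) ∈ Slit p q := by rw [h]; trivial
  have h2 := h1.1 (by rw [im_ab])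
  rw [re_ab] at h2
  exact lt_irrefl _ h2

lemma Slit_right {p q : ℝ} {w : ℂ} (h1 : p < w.re) (h2 : q < w.re) : w ∈ Slit p q :=
  ⟨fun _ => h1, fun _ => h2⟩

lemma Slit_add {p q : ℝ} {w : ℂ} (hw : w ∈ Slit p q) {t : ℝ} (ht : 0 ≤ t) :
    w + (t : ℂ) ∈ Slit p q := by
  constructor
  · intro h
    have := hw.1 (by simpa using h)
    simp; linarith
  · intro h
    have := hw.2 (by simpa using h)
    simp; linarith

lemma isSimplyConnected_Slit (p q : ℝ) : IsSimplyConnected (Slit p q) := by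
  set c : ℝ := |p| + |q| + 1 with hc
  have hpc : p < c := by rw [hc]; linarith [le_abs_self p, abs_nonneg q]
  have hqc : q < c := by rw [hc]; linarith [le_abs_self q, abs_nonneg p]
  have hc0 : 0 ≤ c := by positivity
  have hfar : ∀ w : ℂ, c ≤ w.re → w ∈ Slit p q := fun w hw =>
    Slit_right (lt_of_lt_of_le hpc hw) (lt_of_lt_of_le hqc hw)
  -- the push to the right
  have hpush : ∀ (w : Slit p q) (t : unitInterval),
      (w : ℂ) + (((t : ℝ) * (|(w : ℂ).re| + c) : ℝ) : ℂ) ∈ Slit p q := by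
    intro w t
    exact Slit_add w.2 (mul_nonneg t.2.1 (by positivity))
  have hpush1 : ∀ (w : Slit p q), c ≤ ((w : ℂ) + (((|(w : ℂ).re| + c) : ℝ) : ℂ)).re := by
    intro w
    rw [Complex.add_re, Complex.ofReal_re]
    linarith [neg_abs_le (w : ℂ).re]
  have hcon : ∀ (w : Slit p q) (t : unitInterval),
      ((1 - (t : ℝ) : ℝ) : ℂ) * ((w : ℂ) + (((|(w : ℂ).re| + c) : ℝ) : ℂ)) + (((t : ℝ) * c : ℝ) : ℂ)
        ∈ Slit p q := by
    intro w t
    apply hfar
    rw [Complex.add_re, Complex.re_ofReal_mul, Complex.ofReal_re]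
    have h1 := hpush1 w
    have h2 : (0:ℝ) ≤ 1 - t := by linarith [t.2.2]
    nlinarith [t.2.1, mul_le_mul_of_nonneg_left h1 h2]
  let r : C(Slit p q, Slit p q) :=
    ⟨fun w => ⟨(w : ℂ) + (((|(w : ℂ).re| + c) : ℝ) : ℂ), hfar _ (hpush1 w)⟩, by
      apply Continuous.subtype_mk
      have : Continuous (fun w : Slit p q => (w : ℂ)) := continuous_subtype_val
      fun_prop⟩
  let H1 : ContinuousMap.Homotopy (ContinuousMap.id (Slit p q)) r :=
    { toFun := fun x => ⟨(x.2 : ℂ) + (((x.1 : ℝ) * (|(x.2 : ℂ).re| + c) : ℝ) : ℂ), hpush x.2 x.1⟩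
      continuous_toFun := by
        apply Continuous.subtype_mk
        fun_prop
      map_zero_left := by
        intro w
        apply Subtype.ext
        simp
      map_one_left := by
        intro w
        apply Subtype.ext
        simp [r] }
  let pt : Slit p q := ⟨(c : ℂ), hfar _ (by simp)⟩
  let H2 : ContinuousMap.Homotopy r (ContinuousMap.const (Slit p q) pt) :=
    { toFun := fun x => ⟨((1 - (x.1 : ℝ) : ℝ) : ℂ) * ((x.2 : ℂ) + (((|(x.2 : ℂ).re| + c) : ℝ) : ℂ))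
          + (((x.1 : ℝ) * c : ℝ) : ℂ), hcon x.2 x.1⟩
      continuous_toFun := by
        apply Continuous.subtype_mk
        fun_prop
      map_zero_left := by
        intro w
        apply Subtype.ext
        simp [r]
      map_one_left := by
        intro w
        apply Subtype.ext
        simp [pt] }
  have hnull : (ContinuousMap.id (Slit p q)).Homotopic (ContinuousMap.const (Slit p q) pt) :=
    ⟨H1.trans H2⟩
  have hcs : ContractibleSpace (Slit p q) := by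
    rw [contractible_iff_id_nullhomotopic]
    exact ⟨pt, hnull⟩
  have : SimplyConnectedSpace (Slit p q) := inferInstance
  exact this

end Pool.Agent.H35
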