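import Mathlib
import Pool.Agent.Work.MP_35dab7_an.Tips

/-!
Helper file for the negative answer to MP_35dab7_an.
Numerical values.
-/

set_option autoImplicit false

open Complex Set Filter Topology

namespace Pool.Agent.H35

lemma at_bound (x l u : ℝ) (hx : 0 ≤ x) (h1 : l < x - x^3/3 + x^5/5 - x^7/7)
    (h2 : x - x^3/3 + x^5/5 < u) : l < Real.arctan x ∧ Real.arctan x < u :=
  ⟨h1.trans_le (arctan_lower hx), (arctan_upper hx).trans_lt h2⟩

lemma a201 : (497508333085407/100000000000000000 : ℝ) < Real.arctan (1/201 : ℝ) ∧ Real.arctan (1/201 : ℝ) < (497508333085409/100000000000000000 : ℝ) := by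
  apply at_bound <;> norm_num

lemma a100 : (999966668666523/100000000000000000 : ℝ) < Real.arctan (1/100 : ℝ) ∧ Real.arctan (1/100 : ℝ) < (999966668666667/100000000000000000 : ℝ) := by
  apply at_bound <;> norm_num

lemma a151 : (300445012845929/20000000000000000 : ℝ) < Real.arctan (151/10051 : ℝ) ∧ Real.arctan (151/10051 : ℝ) < (1502225064232113/100000000000000000 : ℝ) := by
  apply at_bound <;> norm_num

lemma a50 : (1999733397315047/100000000000000000 : ℝ) < Real.arctan (1/50 : ℝ) ∧ Real.arctan (1/50 : ℝ) < (999866698666667/50000000000000000 : ℝ) := by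
  apply at_bound <;> norm_num

lemma a5001 : (999766728648529/100000000000000000 : ℝ) < Real.arctan (50/5001 : ℝ) ∧ Real.arctan (50/5001 : ℝ) < (999766728648673/100000000000000000 : ℝ) := by
  apply at_bound <;> norm_num

lemma atn_101 : Real.arctan (101/100 : ℝ) = Real.pi / 4 + Real.arctan (1/201) := by
  rw [← Real.arctan_one, Real.arctan_add (by norm_num)]
  norm_num

lemma atn_m100 : Real.arctan (-100 : ℝ) = -(Real.pi / 2 - Real.arctan (1/100)) := by
  have h := Real.arctan_inv_of_pos (x := 100) (by norm_num)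
  rw [Real.arctan_neg, one_div, h]
  ring

lemma atn_4950 : Real.arctan (4950/5101 : ℝ) = Real.pi / 4 - Real.arctan (151/10051) := by
  rw [← Real.arctan_one, sub_eq_add_neg, ← Real.arctan_neg, Real.arctan_add (by norm_num)]
  norm_num

lemma atn_m50 : Real.arctan (-1/50 : ℝ) = - Real.arctan (1/50) := by
  rw [← Real.arctan_neg]; norm_num

lemma atn_5001 : Real.arctan (5001/50 : ℝ) = Real.pi / 2 - Real.arctan (50/5001) := by
  have h := Real.arctan_inv_of_pos (x := 50/5001) (by norm_num)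
  rw [← h]; norm_num

lemma T11p {η : ℝ} (h1 : 0 < η - (1 - 101/100)) (h2 : 0 < η) :
    (140206151/5000000 : ℝ) < TT (1/4) 50 η ((101/100 : ℝ) : ℂ) ∧
    TT (1/4) 50 η ((101/100 : ℝ) : ℂ) < (56082461/2000000 : ℝ) := by
  have p1 := Real.pi_gt_d20
  have p2 := Real.pi_lt_d20
  obtain ⟨hl, hu⟩ := a201
  rw [TT_real, arg_pos_mul_I h1, arg_pos_mul_I h2, atn_101]
  constructor <;> norm_num at * <;> linarith

lemma T11m {η : ℝ} (h1 : η - (1 - 101/100) < 0) (h2 : η < 0) :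
    (-2861340589/10000000 : ℝ) < TT (1/4) 50 η ((101/100 : ℝ) : ℂ) ∧
    TT (1/4) 50 η ((101/100 : ℝ) : ℂ) < (-1430670293/5000000 : ℝ) := by
  have p1 := Real.pi_gt_d20
  have p2 := Real.pi_lt_d20
  obtain ⟨hl, hu⟩ := a201
  rw [TT_real, arg_neg_mul_I h1, arg_neg_mul_I h2, atn_101]
  constructor <;> norm_num at * <;> linarith

lemma T12p {η : ℝ} (h1 : 0 < η - (1 - 0)) (h2 : 0 < η) :
    (390199081/5000000 : ℝ) < TT (1/4) 50 η ((0 : ℝ) : ℂ) ∧
    TT (1/4) 50 η ((0 : ℝ) : ℂ) < (156079633/2000000 : ℝ) := by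
  have p1 := Real.pi_gt_d20
  have p2 := Real.pi_lt_d20
  rw [TT_real, arg_pos_mul_I h1, arg_pos_mul_I h2, Real.arctan_zero]
  constructor <;> norm_num at * <;> linarith

lemma T12m {η : ℝ} (h1 : η - (1 - 0) < 0) (h2 : η < 0) :
    (-387345101/5000000 : ℝ) < TT (1/4) 50 η ((0 : ℝ) : ℂ) ∧
    TT (1/4) 50 η ((0 : ℝ) : ℂ) < (-774690199/10000000 : ℝ) := by
  have p1 := Real.pi_gt_d20
  have p2 := Real.pi_lt_d20
  rw [TT_real, arg_neg_mul_I h1, arg_neg_mul_I h2, Real.arctan_zero]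
  constructor <;> norm_num at * <;> linarith

lemma T13p {η : ℝ} (h1 : η - (1 - -100) < 0) (h2 : 0 < η) :
    (-3584931/5000000 : ℝ) < TT (1/4) 50 η ((-100 : ℝ) : ℂ) ∧
    TT (1/4) 50 η ((-100 : ℝ) : ℂ) < (-7169859/10000000 : ℝ) := by
  have p1 := Real.pi_gt_d20
  have p2 := Real.pi_lt_d20
  obtain ⟨hl, hu⟩ := a100
  rw [TT_real, arg_neg_mul_I h1, arg_pos_mul_I h2, atn_m100]
  constructor <;> norm_num at * <;> linarith

lemma T13m {η : ℝ} (h1 : η - (1 - -100) < 0) (h2 : η < 0) :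
    (-37963691/10000000 : ℝ) < TT (1/4) 50 η ((-100 : ℝ) : ℂ) ∧
    TT (1/4) 50 η ((-100 : ℝ) : ℂ) < (-4745461/1250000 : ℝ) := by
  have p1 := Real.pi_gt_d20
  have p2 := Real.pi_lt_d20
  obtain ⟨hl, hu⟩ := a100
  rw [TT_real, arg_neg_mul_I h1, arg_neg_mul_I h2, atn_m100]
  constructor <;> norm_num at * <;> linarith

lemma T21p {η : ℝ} (h1 : 0 < η - (1 - 4950/5101)) (h2 : 0 < η) :
    (14016963/500000 : ℝ) < TT (12501/9988) (129852/2497) η ((4950/5101 : ℝ) : ℂ) ∧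
    TT (12501/9988) (129852/2497) η ((4950/5101 : ℝ) : ℂ) < (280339263/10000000 : ℝ) := by
  have p1 := Real.pi_gt_d20
  have p2 := Real.pi_lt_d20
  obtain ⟨hl, hu⟩ := a151
  rw [TT_real, arg_pos_mul_I h1, arg_pos_mul_I h2, atn_4950]
  constructor <;> norm_num at * <;> linarith

lemma T21m {η : ℝ} (h1 : η - (1 - 4950/5101) < 0) (h2 : η < 0) :
    (-571364119/2000000 : ℝ) < TT (12501/9988) (129852/2497) η ((4950/5101 : ℝ) : ℂ) ∧
    TT (12501/9988) (129852/2497) η ((4950/5101 : ℝ) : ℂ) < (-178551287/625000 : ℝ) := by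
  have p1 := Real.pi_gt_d20
  have p2 := Real.pi_lt_d20
  obtain ⟨hl, hu⟩ := a151
  rw [TT_real, arg_neg_mul_I h1, arg_neg_mul_I h2, atn_4950]
  constructor <;> norm_num at * <;> linarith

lemma T22p {η : ℝ} (h1 : 0 < η - (1 - -1/50)) (h2 : 0 < η) :
    (194968831/2500000 : ℝ) < TT (12501/9988) (129852/2497) η ((-1/50 : ℝ) : ℂ) ∧
    TT (12501/9988) (129852/2497) η ((-1/50 : ℝ) : ℂ) < (779875327/10000000 : ℝ) := by
  have p1 := Real.pi_gt_d20
  have p2 := Real.pi_lt_d20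
  obtain ⟨hl, hu⟩ := a50
  rw [TT_real, arg_pos_mul_I h1, arg_pos_mul_I h2, atn_m50]
  constructor <;> norm_num at * <;> linarith

lemma T22m {η : ℝ} (h1 : η - (1 - -1/50) < 0) (h2 : η < 0) :
    (-154977991/2000000 : ℝ) < TT (12501/9988) (129852/2497) η ((-1/50 : ℝ) : ℂ) ∧
    TT (12501/9988) (129852/2497) η ((-1/50 : ℝ) : ℂ) < (-24215311/312500 : ℝ) := by
  have p1 := Real.pi_gt_d20
  have p2 := Real.pi_lt_d20
  obtain ⟨hl, hu⟩ := a50
  rw [TT_real, arg_neg_mul_I h1, arg_neg_mul_I h2, atn_m50]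
  constructor <;> norm_num at * <;> linarith

lemma T23p {η : ℝ} (h1 : 0 < η - (1 - 5001/50)) (h2 : 0 < η) :
    (-7134121/10000000 : ℝ) < TT (12501/9988) (129852/2497) η ((5001/50 : ℝ) : ℂ) ∧
    TT (12501/9988) (129852/2497) η ((5001/50 : ℝ) : ℂ) < (-3567059/5000000 : ℝ) := by
  have p1 := Real.pi_gt_d20
  have p2 := Real.pi_lt_d20
  obtain ⟨hl, hu⟩ := a5001
  rw [TT_real, arg_pos_mul_I h1, arg_pos_mul_I h2, atn_5001]
  constructor <;> norm_num at * <;> linarith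

lemma T23m {η : ℝ} (h1 : 0 < η - (1 - 5001/50)) (h2 : η < 0) :
    (-4898073/1250000 : ℝ) < TT (12501/9988) (129852/2497) η ((5001/50 : ℝ) : ℂ) ∧
    TT (12501/9988) (129852/2497) η ((5001/50 : ℝ) : ℂ) < (-39184581/10000000 : ℝ) := by
  have p1 := Real.pi_gt_d20
  have p2 := Real.pi_lt_d20
  obtain ⟨hl, hu⟩ := a5001
  rw [TT_real, arg_pos_mul_I h1, arg_neg_mul_I h2, atn_5001]
  constructor <;> norm_num at * <;> linarith

end Pool.Agent.H35
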