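import Mathlib
import Pool.Agent.Work.MP_35dab7_an.Numbers
import Pool.Agent.Work.MP_35dab7_an.DiscSol

/-!
Helper file for the negative answer to MP_35dab7_an.
Choice of the coefficients.
-/

set_option autoImplicit false

open Complex Set Filter Topology

namespace Pool.Agent.H35

variable {A B : ℝ}

/-- positive solutions of two linear equations -/
lemma pos_solve {a1 b1 a2 b2 a3 b3 : ℝ} (h12 : 0 < a1 * b2 - b1 * a2)
    (h23 : 0 < a2 * b3 - b2 * a3) (h31 : 0 < a3 * b1 - b3 * a1) (p q : ℝ) :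
    ∃ m1 m2 m3 : ℝ, 0 < m1 ∧ 0 < m2 ∧ 0 < m3 ∧
      m1 * a1 + m2 * a2 + m3 * a3 = p ∧ m1 * b1 + m2 * b2 + m3 * b3 = q := by
  set α : ℝ := (p * b2 - q * a2) / (a1 * b2 - b1 * a2) with hα
  set β : ℝ := (a1 * q - b1 * p) / (a1 * b2 - b1 * a2) with hβ
  set l : ℝ := (|α| + 1) / (a2 * b3 - b2 * a3) + (|β| + 1) / (a3 * b1 - b3 * a1) with hl
  have h1 : |α| + 1 ≤ l * (a2 * b3 - b2 * a3) := by
    rw [hl, add_mul, div_mul_cancel₀ _ h23.ne']
    have : 0 ≤ (|β| + 1) / (a3 * b1 - b3 * a1) * (a2 * b3 - b2 * a3) := by positivity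
    linarith
  have h2 : |β| + 1 ≤ l * (a3 * b1 - b3 * a1) := by
    rw [hl, add_mul, div_mul_cancel₀ _ h31.ne']
    have : 0 ≤ (|α| + 1) / (a2 * b3 - b2 * a3) * (a3 * b1 - b3 * a1) := by positivity
    linarith
  have h3 : 0 < l := by positivity
  have e1 : α * a1 + β * a2 = p := by
    rw [hα, hβ, div_mul_eq_mul_div, div_mul_eq_mul_div, ← add_div, div_eq_iff h12.ne']; ring
  have e2 : α * b1 + β * b2 = q := by
    rw [hα, hβ, div_mul_eq_mul_div, div_mul_eq_mul_div, ← add_div, div_eq_iff h12.ne']; ring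
  refine ⟨α + l * (a2 * b3 - b2 * a3), β + l * (a3 * b1 - b3 * a1), l * (a1 * b2 - b1 * a2),
    ?_, ?_, ?_, ?_, ?_⟩
  · linarith [neg_abs_le α]
  · linarith [neg_abs_le β]
  · positivity
  · linear_combination e1
  · linear_combination e2

/-- the parameter close to the real axis -/
noncomputable def xe (X e : ℝ) : ℂ := (X : ℂ) - (e : ℂ) * I

lemma xe_im (X e : ℝ) : (xe X e).im = -e := by unfold xe; simp

lemma xe_tendsto (X : ℝ) : Tendsto (fun e : ℝ => xe X e) (𝓝[>] 0) (𝓝 (X : ℂ)) := by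
  have h1 : Continuous (fun e : ℝ => xe X e) := by unfold xe; fun_prop
  have h2 := h1.tendsto 0
  have e0 : xe X 0 = (X : ℂ) := by unfold xe; simp
  rw [e0] at h2
  exact h2.mono_left nhdsWithin_le_nhds

/-- rotated parameter -/
noncomputable def rot (x : ℂ) : ℂ := (x - ((1/50 : ℝ) : ℂ)) / (1 + ((1/50 : ℝ) : ℂ) * x)

lemma rot_tendsto {X Y : ℝ} (hne : 1 + (1/50) * X ≠ 0) (hY : (X - 1/50) / (1 + (1/50) * X) = Y) :
    Tendsto (fun e : ℝ => rot (xe X e)) (𝓝[>] 0) (𝓝 (Y : ℂ)) := by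
  have h1 : ContinuousAt rot (X : ℂ) := by
    unfold rot
    apply ContinuousAt.div (by fun_prop) (by fun_prop)
    exact_mod_cast hne
  have h2 : rot (X : ℂ) = (Y : ℂ) := by
    unfold rot; rw [← hY]; push_cast; ring
  have h3 := h1.tendsto.comp (xe_tendsto X)
  rw [h2] at h3
  exact h3

/-- the difference vector -/
noncomputable def DD (η η' : ℝ) (x : ℂ) : ℝ :=
  TT (12501/9988) (129852/2497) η' (rot x) - TT (1/4) 50 η x

lemma DD_tendsto {η η' X Y : ℝ} (hne : 1 + (1/50) * X ≠ 0)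
    (hY : (X - 1/50) / (1 + (1/50) * X) = Y) (h1 : 1 - X ≠ 0) (h2 : 1 - Y ≠ 0)
    (h3 : η - (1 - X) ≠ 0) (h4 : η' - (1 - Y) ≠ 0) :
    Tendsto (fun e : ℝ => DD η η' (xe X e)) (𝓝[>] 0)
      (𝓝 (TT (12501/9988) (129852/2497) η' (Y : ℂ) - TT (1/4) 50 η (X : ℂ))) := by
  have k1 := (TT_continuousAt (A := 12501/9988) (B := 129852/2497) h2 h4).tendsto.comp
    (rot_tendsto hne hY)
  have k2 := (TT_continuousAt (A := 1/4) (B := 50) h1 h3).tendsto.comp (xe_tendsto X)
  exact k1.sub k2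

lemma sub_bd {a b l1 u1 l2 u2 lo hi : ℝ} (h1 : l1 < a) (h2 : a < u1) (h3 : l2 < b) (h4 : b < u2)
    (h5 : lo ≤ l1 - u2) (h6 : u1 - l2 ≤ hi) : lo < a - b ∧ a - b < hi :=
  ⟨by linarith, by linarith⟩

lemma cross_pos {s1p s1m s2p s2m s3p s3m : ℝ}
    (b1p : -0.00732 < s1p ∧ s1p < -0.00729) (b1m : 0.4519 < s1m ∧ s1m < 0.4521)
    (b2p : -0.0524 < s2p ∧ s2p < -0.0522) (b2m : -0.02 < s2m ∧ s2m < -0.0199)
    (b3p : 0.00357 < s3p ∧ s3p < 0.00358) (b3m : -0.1221 < s3m ∧ s3m < -0.12208) :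
    0 < s1p * s2m - s1m * s2p ∧ 0 < s2p * s3m - s2m * s3p ∧ 0 < s3p * s1m - s3m * s1p := by
  have c12 : 0 < s1p * s2m - s1m * s2p := by
    have k1 : 0 < s1p * s2m := mul_pos_of_neg_of_neg (by linarith [b1p.2]) (by linarith [b2m.2])
    have k2 : s1m * s2p < 0 := mul_neg_of_pos_of_neg (by linarith [b1m.1]) (by linarith [b2p.2])
    linarith
  have c23 : 0 < s2p * s3m - s2m * s3p := by
    have k1 : 0 < s2p * s3m := mul_pos_of_neg_of_neg (by linarith [b2p.2]) (by linarith [b3m.2])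
    have k2 : s2m * s3p < 0 := mul_neg_of_neg_of_pos (by linarith [b2m.2]) (by linarith [b3p.1])
    linarith
  have c31 : 0 < s3p * s1m - s3m * s1p := by
    have k1 : 0.00357 * 0.4519 < s3p * s1m :=
      mul_lt_mul'' b3p.1 b1m.1 (by norm_num) (by norm_num)
    have k2 : (-s3m) * (-s1p) < 0.1221 * 0.00732 :=
      mul_lt_mul'' (by linarith [b3m.1]) (by linarith [b1p.1]) (by linarith [b3m.2])
        (by linarith [b1p.2])
    have k3 : (-s3m) * (-s1p) = s3m * s1p := by ring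
    rw [k3] at k2
    norm_num at k1 k2
    linarith
  exact ⟨c12, c23, c31⟩

/-- the crucial positivity -/
lemma exists_eps {η₁ η₂ η₁' η₂' : ℝ} (h1 : 100 < η₁) (h1' : η₁ < 101) (h2 : η₂ < -1/100)
    (h3 : 20 < η₁') (h4 : η₂' < 0) (h4' : -1 < η₂') :
    ∃ e : ℝ, 0 < e ∧
      0 < DD η₁ η₁' (xe (101/100) e) * DD η₂ η₂' (xe 0 e)
        - DD η₂ η₂' (xe (101/100) e) * DD η₁ η₁' (xe 0 e) ∧
      0 < DD η₁ η₁' (xe 0 e) * DD η₂ η₂' (xe (-100) e)
        - DD η₂ η₂' (xe 0 e) * DD η₁ η₁' (xe (-100) e) ∧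
      0 < DD η₁ η₁' (xe (-100) e) * DD η₂ η₂' (xe (101/100) e)
        - DD η₂ η₂' (xe (-100) e) * DD η₁ η₁' (xe (101/100) e) := by
  have t1p := DD_tendsto (η := η₁) (η' := η₁') (X := 101/100) (Y := 4950/5101)
    (by norm_num) (by norm_num) (by norm_num) (by norm_num)
    (by intro h; linarith) (by intro h; linarith)
  have t1m := DD_tendsto (η := η₂) (η' := η₂') (X := 101/100) (Y := 4950/5101)
    (by norm_num) (by norm_num) (by norm_num) (by norm_num)
    (by intro h; linarith) (by intro h; linarith)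
  have t2p := DD_tendsto (η := η₁) (η' := η₁') (X := 0) (Y := -1/50)
    (by norm_num) (by norm_num) (by norm_num) (by norm_num)
    (by intro h; linarith) (by intro h; linarith)
  have t2m := DD_tendsto (η := η₂) (η' := η₂') (X := 0) (Y := -1/50)
    (by norm_num) (by norm_num) (by norm_num) (by norm_num)
    (by intro h; linarith) (by intro h; linarith)
  have t3p := DD_tendsto (η := η₁) (η' := η₁') (X := -100) (Y := 5001/50)
    (by norm_num) (by norm_num) (by norm_num) (by norm_num)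
    (by intro h; linarith) (by intro h; linarith)
  have t3m := DD_tendsto (η := η₂) (η' := η₂') (X := -100) (Y := 5001/50)
    (by norm_num) (by norm_num) (by norm_num) (by norm_num)
    (by intro h; linarith) (by intro h; linarith)
  obtain ⟨n11l, n11u⟩ := T11p (η := η₁) (by linarith) (by linarith)
  obtain ⟨n12l, n12u⟩ := T11m (η := η₂) (by linarith) (by linarith)
  obtain ⟨n13l, n13u⟩ := T12p (η := η₁) (by linarith) (by linarith)
  obtain ⟨n14l, n14u⟩ := T12m (η := η₂) (by linarith) (by linarith)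
  obtain ⟨n15l, n15u⟩ := T13p (η := η₁) (by linarith) (by linarith)
  obtain ⟨n16l, n16u⟩ := T13m (η := η₂) (by linarith) (by linarith)
  obtain ⟨n21l, n21u⟩ := T21p (η := η₁') (by linarith) (by linarith)
  obtain ⟨n22l, n22u⟩ := T21m (η := η₂') (by linarith) (by linarith)
  obtain ⟨n23l, n23u⟩ := T22p (η := η₁') (by linarith) (by linarith)
  obtain ⟨n24l, n24u⟩ := T22m (η := η₂') (by linarith) (by linarith)
  obtain ⟨n25l, n25u⟩ := T23p (η := η₁') (by linarith) (by linarith)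
  obtain ⟨n26l, n26u⟩ := T23m (η := η₂') (by linarith) (by linarith)
  obtain ⟨c12, c23, c31⟩ := cross_pos
    (sub_bd n21l n21u n11l n11u (by norm_num) (by norm_num))
    (sub_bd n22l n22u n12l n12u (by norm_num) (by norm_num))
    (sub_bd n23l n23u n13l n13u (by norm_num) (by norm_num))
    (sub_bd n24l n24u n14l n14u (by norm_num) (by norm_num))
    (sub_bd n25l n25u n15l n15u (by norm_num) (by norm_num))
    (sub_bd n26l n26u n16l n16u (by norm_num) (by norm_num))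
  have u12 := ((t1p.mul t2m).sub (t1m.mul t2p)).eventually_const_lt c12
  have u23 := ((t2p.mul t3m).sub (t2m.mul t3p)).eventually_const_lt c23
  have u31 := ((t3p.mul t1m).sub (t3m.mul t1p)).eventually_const_lt c31
  have upos : ∀ᶠ e : ℝ in 𝓝[>] 0, 0 < e := self_mem_nhdsWithin
  obtain ⟨e, he⟩ := (upos.and (u12.and (u23.and u31))).exists
  exact ⟨e, he⟩

end Pool.Agent.H35
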