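import Mathlib
import Pool.Agent.Work.MP_35dab7_an.Assemble

/-!
Helper file for the negative answer to MP_35dab7_an.
The final assembly.
-/

set_option autoImplicit false

open Complex Set Filter Topology

namespace Pool.Agent.H35

variable {A B : ℝ}

/-- the primitive -/
noncomputable def KS (A B m1 m2 m3 : ℝ) (x1 x2 x3 : ℂ) (u : ℂ) : ℂ :=
  FF A B u + m1 * KK A B x1 u + m2 * KK A B x2 u + m3 * KK A B x3 u

/-- the function with positive real part -/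
noncomputable def QS (m1 m2 m3 : ℝ) (x1 x2 x3 : ℂ) (u : ℂ) : ℂ :=
  1 + m1 * HH x1 u + m2 * HH x2 u + m3 * HH x3 u

lemma KS_hasDerivAt {m1 m2 m3 : ℝ} {x1 x2 x3 u : ℂ} (h1 : x1.im < 0) (h2 : x2.im < 0)
    (h3 : x3.im < 0) (hu : u ∈ slitPlane) (hu0 : 0 ≤ u.re) :
    HasDerivAt (KS A B m1 m2 m3 x1 x2 x3) (QS m1 m2 m3 x1 x2 x3 u * FD A B u) u := by
  have k0 := FF_hasDerivAt (A := A) (B := B) hu
  have k1 := (KK_hasDerivAt (A := A) (B := B) (pp_ne h1) hu (sub_pp_slit h1 hu0)).const_mul (m1 : ℂ)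
  have k2 := (KK_hasDerivAt (A := A) (B := B) (pp_ne h2) hu (sub_pp_slit h2 hu0)).const_mul (m2 : ℂ)
  have k3 := (KK_hasDerivAt (A := A) (B := B) (pp_ne h3) hu (sub_pp_slit h3 hu0)).const_mul (m3 : ℂ)
  have e : QS m1 m2 m3 x1 x2 x3 u * FD A B u = FD A B u + m1 * (HH x1 u * FD A B u)
      + m2 * (HH x2 u * FD A B u) + m3 * (HH x3 u * FD A B u) := by unfold QS; ring
  rw [e]
  exact ((k0.add k1).add k2).add k3

lemma QS_re {m1 m2 m3 : ℝ} {x1 x2 x3 u : ℂ} (hm1 : 0 < m1) (hm2 : 0 < m2) (hm3 : 0 < m3)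
    (h1 : x1.im < 0) (h2 : x2.im < 0) (h3 : x3.im < 0) (hu : u ∈ HP) :
    1 ≤ (QS m1 m2 m3 x1 x2 x3 u).re := by
  unfold QS
  rw [Complex.add_re, Complex.add_re, Complex.add_re, Complex.re_ofReal_mul,
    Complex.re_ofReal_mul, Complex.re_ofReal_mul, Complex.one_re]
  have := mul_pos hm1 (HH_re_pos h1 hu)
  have := mul_pos hm2 (HH_re_pos h2 hu)
  have := mul_pos hm3 (HH_re_pos h3 hu)
  linarith

lemma KS_tip {m1 m2 m3 : ℝ} {x1 x2 x3 : ℂ} (h1 : x1.im < 0) (h2 : x2.im < 0)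
    (h3 : x3.im < 0) {η : ℝ} (hη : η ≠ 0) :
    Tendsto (fun v => (KS A B m1 m2 m3 x1 x2 x3 v).re) (𝓝[HP] ((η : ℂ) * I))
      (𝓝 (KS A B m1 m2 m3 x1 x2 x3 ((η : ℂ) * I)).re) := by
  have hsl : (η : ℂ) * I ∈ slitPlane := Or.inr (by simpa using hη)
  have h0 : 0 ≤ ((η : ℂ) * I).re := by simp
  have hc := (KS_hasDerivAt (A := A) (B := B) (m1 := m1) (m2 := m2) (m3 := m3) h1 h2 h3 hsl
    h0).continuousAt
  exact ((Complex.continuous_re.continuousAt.comp' hc).tendsto).mono_left nhdsWithin_le_nhds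

lemma HH_bb {x : ℂ} (hx : x.im < 0) : HH x bb = 1 := by
  have h := HH_psi (x := x) (w := 0) hx (by simp)
  rw [psi_zero, mul_zero, add_zero, sub_zero] at h
  rw [h]
  apply div_self
  intro h0
  have := congrArg Complex.re h0
  simp at this
  linarith

lemma KS_diff (m1 m2 m3 : ℝ) (x1 x2 x3 : ℂ) (η : ℝ) :
    (KS A B m1 m2 m3 x1 x2 x3 ((η : ℂ) * I)).re - (KS A B m1 m2 m3 x1 x2 x3 bb).re
    = ((FF A B ((η : ℂ) * I)).re - (FF A B bb).re)
      + m1 * TT A B η x1 + m2 * TT A B η x2 + m3 * TT A B η x3 := by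
  unfold KS TT
  rw [Complex.add_re, Complex.add_re, Complex.add_re, Complex.re_ofReal_mul,
    Complex.re_ofReal_mul, Complex.re_ofReal_mul, Complex.add_re, Complex.add_re, Complex.add_re,
    Complex.re_ofReal_mul, Complex.re_ofReal_mul, Complex.re_ofReal_mul]
  ring

lemma omega_bound {q : ℂ} {R : ℝ} (h1 : 1 ≤ q.re) (hR : ‖q‖ ≤ R) :
    ‖(q - 1) / (q + 1)‖ ≤ Real.sqrt (1 - 4 / (R + 1)^2) := by
  have hne := add_one_ne (lt_of_lt_of_le one_pos h1)
  have hR1 : 1 ≤ R := by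
    have := Complex.abs_re_le_norm q
    rw [abs_of_pos (by linarith)] at this
    linarith
  apply Real.le_sqrt_of_sq_le
  rw [norm_div, div_pow]
  have hp : 0 < ‖q + 1‖^2 := by have := norm_pos_iff.mpr hne; positivity
  have e : ‖q - 1‖^2 = ‖q + 1‖^2 - 4 * q.re := by
    rw [← Complex.normSq_eq_norm_sq, ← Complex.normSq_eq_norm_sq, Complex.normSq_apply,
      Complex.normSq_apply]
    simp
    ring
  have h2 : ‖q + 1‖ ≤ R + 1 := (norm_add_le _ _).trans (by simpa using hR)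
  have h3 : ‖q + 1‖^2 ≤ (R + 1)^2 := by gcongr
  rw [e, sub_div, div_self hp.ne']
  have h4 : 4 / (R + 1)^2 ≤ 4 * q.re / ‖q + 1‖^2 := by
    apply div_le_div₀ (by linarith) (by linarith) hp h3
  linarith

lemma sqrt_lt_one' {R : ℝ} (hR : 0 ≤ R) : Real.sqrt (1 - 4 / (R + 1)^2) < 1 := by
  rw [Real.sqrt_lt' one_pos]
  have : 0 < 4 / (R + 1)^2 := by positivity
  linarith

lemma FD1 : FD (1/4) 50 bb = 1 - 50 * I := by
  have : bb⁻¹ = (1 - I) / 2 := by
    rw [inv_eq_one_div, div_eq_div_iff (HP_ne bb_mem) (by norm_num)]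
    unfold bb; linear_combination I_sq
  unfold FD
  rw [this]
  unfold bb
  push_cast
  ring

lemma FD2 : FD (12501/9988) (129852/2497) bb = 7499/2497 - 50 * I := by
  have : bb⁻¹ = (1 - I) / 2 := by
    rw [inv_eq_one_div, div_eq_div_iff (HP_ne bb_mem) (by norm_num)]
    unfold bb; linear_combination I_sq
  unfold FD
  rw [this]
  unfold bb
  push_cast
  ring

lemma imF_hasDerivAt {κ : ℂ} (hκ : ‖κ‖ = 1) :
    HasDerivAt (fun t : ℝ => (FF A B (psi (κ * (t * I)))).im) (2 * (FD A B bb * κ).re) 0 := by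
  have h0 := FFcomp_hasDerivAt (A := A) (B := B) hκ (Metric.mem_ball_self (x := (0:ℂ)) one_pos)
  rw [mul_zero, psi_zero] at h0
  have h1 : HasDerivAt (fun w : ℂ => w * I) I (((0:ℝ) : ℂ)) := by
    simpa using (hasDerivAt_id (((0:ℝ) : ℂ))).mul_const I
  have h0' : HasDerivAt (fun z : ℂ => FF A B (psi (κ * z)))
      (FD A B bb * (2 / (1 - 0)^2 * κ)) ((fun w : ℂ => w * I) ((0:ℝ) : ℂ)) := by
    simpa using h0
  have h2 : HasDerivAt (fun w : ℂ => FF A B (psi (κ * (w * I))))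
      (FD A B bb * (2 / (1 - 0)^2 * κ) * I) ((0:ℝ) : ℂ) :=
    HasDerivAt.comp (h₂ := fun z : ℂ => FF A B (psi (κ * z))) (h := fun w : ℂ => w * I) _ h0' h1
  have h3 := (h2.const_mul (-I)).real_of_complex
  have e1 : (-I * (FD A B bb * (2 / (1 - 0)^2 * κ) * I)).re = 2 * (FD A B bb * κ).re := by
    have : -I * (FD A B bb * (2 / (1 - 0)^2 * κ) * I) = ((2 : ℝ) : ℂ) * (FD A B bb * κ) := by
      push_cast
      linear_combination (-2 * (FD A B bb * κ)) * I_sq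
    rw [this, Complex.re_ofReal_mul]
  rw [e1] at h3
  have e2 : (fun t : ℝ => (-I * FF A B (psi (κ * (t * I)))).re)
      = (fun t : ℝ => (FF A B (psi (κ * (t * I)))).im) := by
    funext y; simp
  rwa [e2] at h3

/-- the conditions on a solution, for the decomposition `h + conj g` -/
def DiscData (Ω : Set ℂ) (ω : ℂ → ℂ) (w₀ : ℂ) (h g : ℂ → ℂ) : Prop :=
  DifferentiableOn ℂ h (Metric.ball 0 1) ∧
  DifferentiableOn ℂ g (Metric.ball 0 1) ∧
  (∀ z ∈ Metric.ball (0 : ℂ) 1, ‖deriv g z‖ < ‖deriv h z‖) ∧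
  (∀ z ∈ Metric.ball (0 : ℂ) 1, deriv g z = ω z * deriv h z) ∧
  InjOn (fun z => h z + (starRingEnd ℂ) (g z)) (Metric.ball 0 1) ∧
  (fun z => h z + (starRingEnd ℂ) (g z)) '' (Metric.ball 0 1) = Ω ∧
  h 0 + (starRingEnd ℂ) (g 0) = w₀ ∧
  0 < (deriv h 0).re ∧ (deriv h 0).im = 0

lemma xe_neg {X e : ℝ} (he : 0 < e) : (xe X e).im < 0 := by rw [xe_im]; linarith

lemma rot_neg {x : ℂ} (hx : x.im < 0) : (rot x).im < 0 := rot_im_neg (1/50) hx

lemma HH_rot' {x w : ℂ} (hx : x.im < 0) (hw : ‖w‖ < 1) :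
    HH (rot x) (psi ((1 - I * ((1/50 : ℝ) : ℂ)) / (1 + I * ((1/50 : ℝ) : ℂ)) * w))
      = HH x (psi w) := by
  have := HH_rot (τ := 1/50) hx (rot_neg hx) hw (rot_ne (1/50) hx)
  exact this

/-- the rotation between the two maps -/
noncomputable def lam : ℂ := (1 - I * ((1/50 : ℝ) : ℂ)) / (1 + I * ((1/50 : ℝ) : ℂ))

lemma lam_eq : lam = (2499 - 100 * I) / 2501 := by
  unfold lam
  have h1 : (1 : ℂ) + I * ((1/50 : ℝ) : ℂ) ≠ 0 := by
    intro h
    have := congrArg Complex.re h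
    simp at this
  rw [div_eq_div_iff h1 (by norm_num)]
  push_cast
  linear_combination 2 * I_sq

lemma norm_lam : ‖lam‖ = 1 := by
  have h1 : (1 : ℂ) + I * ((1/50 : ℝ) : ℂ) ≠ 0 := by
    intro h
    have := congrArg Complex.re h
    simp at this
  unfold lam
  rw [norm_div, div_eq_one_iff_eq (norm_ne_zero_iff.mpr h1)]
  have : (1 : ℂ) - I * ((1/50 : ℝ) : ℂ) = (starRingEnd ℂ) (1 + I * ((1/50 : ℝ) : ℂ)) := by
    simp [Complex.ext_iff]
  rw [this, Complex.norm_conj]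

/-- the first rotation -/
noncomputable def kap : ℂ := (1 + 50 * I) / ((Real.sqrt 2501 : ℝ) : ℂ)

lemma s_pos : 0 < Real.sqrt 2501 := Real.sqrt_pos.mpr (by norm_num)

lemma s_sq : Real.sqrt 2501 * Real.sqrt 2501 = 2501 := Real.mul_self_sqrt (by norm_num)

lemma norm_kap : ‖kap‖ = 1 := by
  have h : ‖(1 + 50 * I : ℂ)‖ = Real.sqrt 2501 := by
    rw [← Real.sqrt_sq (norm_nonneg (1 + 50 * I : ℂ)), ← Complex.normSq_eq_norm_sq,
      Complex.normSq_apply]
    congr 1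
    simp
    norm_num
  unfold kap
  rw [norm_div, h, Complex.norm_real, Real.norm_of_nonneg s_pos.le, div_self s_pos.ne']

lemma FDkap1 : FD (1/4) 50 bb * kap = ((2501 / Real.sqrt 2501 : ℝ) : ℂ) := by
  rw [FD1]
  unfold kap
  push_cast
  rw [mul_div_assoc']
  congr 1
  linear_combination (-2500) * I_sq

lemma FDkap2 : FD (12501/9988) (129852/2497) bb * (kap * lam)
    = ((15643757501 / 6244997 / Real.sqrt 2501 : ℝ) : ℂ) := by
  rw [FD2, lam_eq]
  unfold kap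
  have hs : ((Real.sqrt 2501 : ℝ) : ℂ) ≠ 0 := by exact_mod_cast s_pos.ne'
  push_cast
  field_simp
  ring_nf
  rw [I_sq, I_pow_three]
  ring

end Pool.Agent.H35
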