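import Mathlib
import Pool.Agent.Work.MP_35dab7_an.Final

/-!
Helper file for the negative answer to MP_35dab7_an.
The main statement.
-/

set_option autoImplicit false

open Complex Set Filter Topology

namespace Pool.Agent.H35

lemma r1_bounds : (50.01 : ℝ) < Real.sqrt 2502 ∧ Real.sqrt 2502 < 50.03 := by
  constructor
  · rw [Real.lt_sqrt (by norm_num)]; norm_num
  · rw [Real.sqrt_lt' (by norm_num)]; norm_num

lemma r2_bounds : (52.09 : ℝ) < Real.sqrt ((129852/2497)^2 + 8 * (12501/9988)) ∧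
    Real.sqrt ((129852/2497)^2 + 8 * (12501/9988)) < 52.11 := by
  constructor
  · rw [Real.lt_sqrt (by norm_num)]; norm_num
  · rw [Real.sqrt_lt' (by norm_num)]; norm_num

theorem main : ∃ (Ω : Set ℂ) (w₀ : ℂ) (ω : ℂ → ℂ) (k : ℝ) (h₁ g₁ h₂ g₂ : ℂ → ℂ),
    IsOpen Ω ∧ IsSimplyConnected Ω ∧ Ω ≠ univ ∧ w₀ ∈ Ω ∧
    DifferentiableOn ℂ ω (Metric.ball 0 1) ∧ k < 1 ∧
    (∀ z ∈ Metric.ball (0 : ℂ) 1, ‖ω z‖ ≤ k) ∧
    DiscData Ω ω w₀ h₁ g₁ ∧ DiscData Ω ω w₀ h₂ g₂ ∧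
    ∃ z ∈ Metric.ball (0 : ℂ) 1,
      h₁ z + (starRingEnd ℂ) (g₁ z) ≠ h₂ z + (starRingEnd ℂ) (g₂ z) := by
  -- tips of the first map
  obtain ⟨r1l, r1u⟩ := r1_bounds
  set r1 := Real.sqrt 2502 with hr1
  have hr1sq : r1^2 = 50^2 + 8 * (1/4 : ℝ) := by
    rw [hr1, Real.sq_sqrt (by norm_num)]; norm_num
  obtain ⟨p1, q1, p2, q2⟩ := tips_exist (A := 1/4) (B := 50) (by norm_num) hr1sq
    (by rw [abs_of_pos (by norm_num)]; linarith)
  set η₁ : ℝ := (50 + r1) / (4 * (1/4)) with hη₁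
  set η₂ : ℝ := (50 - r1) / (4 * (1/4)) with hη₂
  have b1 : 100 < η₁ := by rw [hη₁]; norm_num; linarith
  have b2 : η₁ < 101 := by rw [hη₁]; norm_num; linarith
  have b3 : η₂ < -1/100 := by rw [hη₂]; norm_num at *; linarith
  -- tips of the second map
  obtain ⟨r2l, r2u⟩ := r2_bounds
  set r2 := Real.sqrt ((129852/2497)^2 + 8 * (12501/9988)) with hr2
  have hr2sq : r2^2 = (129852/2497)^2 + 8 * (12501/9988 : ℝ) := by
    rw [hr2, Real.sq_sqrt (by norm_num)]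
  obtain ⟨p1', q1', p2', q2'⟩ := tips_exist (A := 12501/9988) (B := 129852/2497) (by norm_num)
    hr2sq (by rw [abs_of_pos (by norm_num)]; norm_num at *; linarith)
  set η₁' : ℝ := (129852/2497 + r2) / (4 * (12501/9988)) with hη₁'
  set η₂' : ℝ := (129852/2497 - r2) / (4 * (12501/9988)) with hη₂'
  have b4 : 20 < η₁' := by
    rw [hη₁', lt_div_iff₀ (by norm_num)]; norm_num at *; linarith
  have b5 : -1 < η₂' := by
    rw [hη₂', lt_div_iff₀ (by norm_num)]; norm_num at *; linarith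
  -- coefficients
  obtain ⟨e, he, c12, c23, c31⟩ := exists_eps b1 b2 b3 b4 q1' b5
  obtain ⟨m1, m2, m3, hm1, hm2, hm3, eqp, eqm⟩ := pos_solve c12 c23 c31
    (((FF (1/4) 50 ((η₁ : ℂ) * I)).re - (FF (1/4) 50 bb).re)
      - ((FF (12501/9988) (129852/2497) ((η₁' : ℂ) * I)).re
        - (FF (12501/9988) (129852/2497) bb).re))
    (((FF (1/4) 50 ((η₂ : ℂ) * I)).re - (FF (1/4) 50 bb).re)
      - ((FF (12501/9988) (129852/2497) ((η₂' : ℂ) * I)).re
        - (FF (12501/9988) (129852/2497) bb).re))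
  set x1 := xe (101/100) e with hx1
  set x2 := xe 0 e with hx2
  set x3 := xe (-100) e with hx3
  have n1 : x1.im < 0 := xe_neg he
  have n2 : x2.im < 0 := xe_neg he
  have n3 : x3.im < 0 := xe_neg he
  have n1' : (rot x1).im < 0 := rot_neg n1
  have n2' : (rot x2).im < 0 := rot_neg n2
  have n3' : (rot x3).im < 0 := rot_neg n3
  -- the two primitives
  set K1 : ℂ → ℂ := KS (1/4) 50 m1 m2 m3 x1 x2 x3 with hK1
  set K2 : ℂ → ℂ := KS (12501/9988) (129852/2497) m1 m2 m3 (rot x1) (rot x2) (rot x3) with hK2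
  set Q1 : ℂ → ℂ := QS m1 m2 m3 x1 x2 x3 with hQ1
  set Q2 : ℂ → ℂ := QS m1 m2 m3 (rot x1) (rot x2) (rot x3) with hQ2
  set ω : ℂ → ℂ := fun z => (Q1 (psi (kap * z)) - 1) / (Q1 (psi (kap * z)) + 1) with hω
  have hQQ : ∀ z ∈ Metric.ball (0 : ℂ) 1, Q2 (psi ((kap * lam) * z)) = Q1 (psi (kap * z)) := by
    intro z hz
    have hz' := norm_rot norm_kap hz
    have e1 : (kap * lam) * z = lam * (kap * z) := by ring
    rw [hQ2, hQ1, e1]
    unfold QS lam
    rw [HH_rot' n1 hz', HH_rot' n2 hz', HH_rot' n3 hz']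
  have hkl : ‖kap * lam‖ = 1 := by rw [norm_mul, norm_kap, norm_lam, one_mul]
  have sol1 := disc_sol (A := 1/4) (B := 50) (by norm_num) (K := K1) (Q := Q1) one_pos
    (fun v hv => KS_hasDerivAt n1 n2 n3 (HP_slit hv) (le_of_lt hv))
    (fun v hv => QS_re hm1 hm2 hm3 n1 n2 n3 hv) p1 q1 p2 q2
    (KS_tip n1 n2 n3 p1.ne') (KS_tip n1 n2 n3 q1.ne) norm_kap (ω := ω) (fun z _ => rfl)
  have sol2 := disc_sol (A := 12501/9988) (B := 129852/2497) (by norm_num) (K := K2) (Q := Q2)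
    one_pos
    (fun v hv => KS_hasDerivAt n1' n2' n3' (HP_slit hv) (le_of_lt hv))
    (fun v hv => QS_re hm1 hm2 hm3 n1' n2' n3' hv) p1' q1' p2' q2'
    (KS_tip n1' n2' n3' p1'.ne') (KS_tip n1' n2' n3' q1'.ne) hkl (ω := ω)
    (fun z hz => by rw [hQQ z hz])
  rw [← hK1] at sol1
  rw [← hK2] at sol2
  -- the two images agree
  have img1 : (KS (12501/9988) (129852/2497) m1 m2 m3 (rot x1) (rot x2) (rot x3)
        ((η₁' : ℂ) * I)).re - (K2 bb).re
      = (KS (1/4) 50 m1 m2 m3 x1 x2 x3 ((η₁ : ℂ) * I)).re - (K1 bb).re := by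
    rw [hK1, hK2, KS_diff, KS_diff]
    unfold DD at eqp
    linear_combination eqp
  have img2 : (KS (12501/9988) (129852/2497) m1 m2 m3 (rot x1) (rot x2) (rot x3)
        ((η₂' : ℂ) * I)).re - (K2 bb).re
      = (KS (1/4) 50 m1 m2 m3 x1 x2 x3 ((η₂ : ℂ) * I)).re - (K1 bb).re := by
    rw [hK1, hK2, KS_diff, KS_diff]
    unfold DD at eqm
    linear_combination eqm
  rw [img1, img2] at sol2
  obtain ⟨s11, s12, s13, s14, s15, s16, s17, s18⟩ := sol1
  obtain ⟨s21, s22, s23, s24, s25, s26, s27, s28⟩ := sol2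
  have hval : ((2 * (12501/9988) - 129852/2497 + Real.pi / 4 : ℝ) : ℂ) * I
      = ((2 * (1/4) - 50 + Real.pi / 4 : ℝ) : ℂ) * I := by
    congr 2
    norm_num
  have hQb1 : Q1 bb + 1 = ((2 + m1 + m2 + m3 : ℝ) : ℂ) := by
    rw [hQ1]; unfold QS
    rw [HH_bb n1, HH_bb n2, HH_bb n3]; push_cast; ring
  have hQb2 : Q2 bb + 1 = ((2 + m1 + m2 + m3 : ℝ) : ℂ) := by
    rw [hQ2]; unfold QS
    rw [HH_bb n1', HH_bb n2', HH_bb n3']; push_cast; ring
  rw [hQb1, FDkap1, ← Complex.ofReal_mul] at s18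
  rw [hQb2, FDkap2, ← Complex.ofReal_mul] at s28
  have hspos := s_pos
  set Ω := Slit ((KS (1/4) 50 m1 m2 m3 x1 x2 x3 ((η₁ : ℂ) * I)).re - (K1 bb).re)
    ((KS (1/4) 50 m1 m2 m3 x1 x2 x3 ((η₂ : ℂ) * I)).re - (K1 bb).re) with hΩ
  obtain ⟨C1, hC1, hC1'⟩ := HH_psi_bound n1
  obtain ⟨C2, hC2, hC2'⟩ := HH_psi_bound n2
  obtain ⟨C3, hC3, hC3'⟩ := HH_psi_bound n3
  set R : ℝ := 1 + m1 * C1 + m2 * C2 + m3 * C3 with hR
  have hR0 : 0 ≤ R := by positivity
  refine ⟨Ω, ((2 * (1/4) - 50 + Real.pi / 4 : ℝ) : ℂ) * I, ω, Real.sqrt (1 - 4 / (R + 1)^2),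
    hh (1/4) 50 K1 kap, gg (1/4) 50 K1 kap,
    hh (12501/9988) (129852/2497) K2 (kap * lam), gg (12501/9988) (129852/2497) K2 (kap * lam),
    isOpen_Slit _ _, isSimplyConnected_Slit _ _, Slit_ne_univ _ _, ?_, ?_, sqrt_lt_one' hR0,
    ?_, ?_, ?_, ?_⟩
  · rw [← s17, ← s16]
    exact mem_image_of_mem _ (Metric.mem_ball_self one_pos)
  · intro z hz
    have hz' := norm_rot norm_kap hz
    have hv := psi_mem hz'
    have hv0 : (0:ℝ) < (psi (kap * z)).re := hv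
    have d1 : DifferentiableAt ℂ (fun z : ℂ => psi (kap * z)) z :=
      DifferentiableAt.comp (g := psi) (f := fun z : ℂ => kap * z) z
        (psi_hasDerivAt hz').differentiableAt (by fun_prop)
    have dH : ∀ x : ℂ, x.im < 0 → DifferentiableAt ℂ (fun z : ℂ => HH x (psi (kap * z))) z := by
      intro x hx
      unfold HH
      have hne : psi (kap * z) - pp x ≠ 0 := slitPlane_ne_zero (sub_pp_slit hx hv0.le)
      exact ((differentiableAt_const _).div (d1.sub_const _) hne).add_const _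
    have dQ : DifferentiableAt ℂ (fun z : ℂ => Q1 (psi (kap * z))) z := by
      rw [hQ1]
      unfold QS
      exact ((((dH x1 n1).const_mul _).const_add _).add ((dH x2 n2).const_mul _)).add
        ((dH x3 n3).const_mul _)
    have hq : 0 < (Q1 (psi (kap * z))).re :=
      lt_of_lt_of_le one_pos (QS_re hm1 hm2 hm3 n1 n2 n3 hv)
    exact ((dQ.sub_const 1).div (dQ.add_const 1) (add_one_ne hq)).differentiableWithinAt
  · intro z hz
    have hz' := norm_rot norm_kap hz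
    apply omega_bound (QS_re hm1 hm2 hm3 n1 n2 n3 (psi_mem hz'))
    rw [hR]
    unfold QS
    have t1 : ‖(m1 : ℂ) * HH x1 (psi (kap * z))‖ ≤ m1 * C1 := by
      rw [norm_mul, Complex.norm_real, Real.norm_of_nonneg hm1.le]
      exact mul_le_mul_of_nonneg_left (hC1' _ hz') hm1.le
    have t2 : ‖(m2 : ℂ) * HH x2 (psi (kap * z))‖ ≤ m2 * C2 := by
      rw [norm_mul, Complex.norm_real, Real.norm_of_nonneg hm2.le]
      exact mul_le_mul_of_nonneg_left (hC2' _ hz') hm2.le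
    have t3 : ‖(m3 : ℂ) * HH x3 (psi (kap * z))‖ ≤ m3 * C3 := by
      rw [norm_mul, Complex.norm_real, Real.norm_of_nonneg hm3.le]
      exact mul_le_mul_of_nonneg_left (hC3' _ hz') hm3.le
    calc _ ≤ ‖(1 : ℂ) + m1 * HH x1 (psi (kap * z)) + m2 * HH x2 (psi (kap * z))‖
          + ‖(m3 : ℂ) * HH x3 (psi (kap * z))‖ := norm_add_le _ _
      _ ≤ (‖(1 : ℂ) + m1 * HH x1 (psi (kap * z))‖ + ‖(m2 : ℂ) * HH x2 (psi (kap * z))‖)
          + ‖(m3 : ℂ) * HH x3 (psi (kap * z))‖ := by gcongr; exact norm_add_le _ _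
      _ ≤ ((‖(1 : ℂ)‖ + ‖(m1 : ℂ) * HH x1 (psi (kap * z))‖)
          + ‖(m2 : ℂ) * HH x2 (psi (kap * z))‖)
          + ‖(m3 : ℂ) * HH x3 (psi (kap * z))‖ := by gcongr; exact norm_add_le _ _
      _ ≤ _ := by rw [norm_one]; linarith
  · refine ⟨s11, s12, s13, s14, s15, s16, s17, ?_, ?_⟩
    · rw [s18, Complex.ofReal_re]; positivity
    · rw [s18, Complex.ofReal_im]
  · refine ⟨s21, s22, s23, s24, s25, s26, ?_, ?_, ?_⟩
    · rw [← hval]; exact s27
    · rw [s28, Complex.ofReal_re]; positivity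
    · rw [s28, Complex.ofReal_im]
  · by_contra hcon
    push Not at hcon
    have him : ∀ z ∈ Metric.ball (0 : ℂ) 1,
        (FF (1/4) 50 (psi (kap * z))).im
          = (FF (12501/9988) (129852/2497) (psi ((kap * lam) * z))).im := by
      intro z hz
      have h1 : ff (1/4) 50 K1 kap z = ff (12501/9988) (129852/2497) K2 (kap * lam) z := hcon z hz
      rw [ff_eq, ff_eq] at h1
      have h2 := congrArg Complex.im h1
      rw [Complex.sub_im, Complex.sub_im, shear_im, shear_im, Complex.ofReal_im,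
        Complex.ofReal_im, sub_zero, sub_zero] at h2
      exact h2
    have d1 := imF_hasDerivAt (A := 1/4) (B := 50) norm_kap
    have d2 := imF_hasDerivAt (A := 12501/9988) (B := 129852/2497) hkl
    have hev : (fun t : ℝ => (FF (12501/9988) (129852/2497) (psi ((kap * lam) * (t * I)))).im)
        =ᶠ[𝓝 0] (fun t : ℝ => (FF (1/4) 50 (psi (kap * (t * I)))).im) := by
      have hb : ∀ᶠ t : ℝ in 𝓝 0, t ∈ Metric.ball (0 : ℝ) 1 := Metric.ball_mem_nhds _ one_pos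
      filter_upwards [hb] with t ht
      refine (him _ ?_).symm
      rw [mem_ball_zero_iff] at ht ⊢
      rw [norm_mul, Complex.norm_I, mul_one, Complex.norm_real]
      exact ht
    have d3 := (d1.congr_of_eventuallyEq hev).unique d2
    rw [FDkap1, FDkap2, Complex.ofReal_re, Complex.ofReal_re] at d3
    have hne := hspos.ne'
    field_simp at d3
    norm_num at d3

end Pool.Agent.H35
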